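import Mathlib

/-!
The sheaves of operators of level `e` on a scheme, the inclusions between them and
global Frobenius splittings.
-/

namespace Pool.Agent.H891Z.Dif

open AlgebraicGeometry CategoryTheory TopologicalSpace Opposite

/-- restriction of functions from `V` to `W ⊆ V` -/
abbrev res {X : Scheme.{0}} {V W : X.Opens} (h : W ≤ V) : Γ(X, V) →+* Γ(X, W) :=
  (X.presheaf.map (homOfLE h).op).hom

lemma res_res {X : Scheme.{0}} {U V W : X.Opens} (h : V ≤ U) (h' : W ≤ V) (f : Γ(X, U)) :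
    res h' (res h f) = res (h'.trans h) f := by
  rw [← RingHom.comp_apply, ← CommRingCat.hom_comp, ← Functor.map_comp]
  rfl

lemma res_self {X : Scheme.{0}} {U : X.Opens} (f : Γ(X, U)) : res (le_refl U) f = f := by
  have : (homOfLE (le_refl U)).op = 𝟙 (op U) := rfl
  unfold res
  rw [this, X.presheaf.map_id]
  rfl

/-- Sections over `U` of the sheaf of endomorphisms of `O_X` that are linear over `q`-th powers:
families of additive maps `O(V) → O(V)`, `V ⊆ U` open, commuting with restriction and with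
multiplication by `q`-th powers. -/
def DSec (X : Scheme.{0}) (q : ℕ) (U : X.Opens) :
    AddSubgroup (∀ V : {V : X.Opens // V ≤ U}, Γ(X, V.1) →+ Γ(X, V.1)) where
  carrier := {φ | (∀ (V W : {V : X.Opens // V ≤ U}) (h : W.1 ≤ V.1) (f : Γ(X, V.1)),
      res h (φ V f) = φ W (res h f)) ∧
    ∀ (V : {V : X.Opens // V ≤ U}) (g f : Γ(X, V.1)), φ V (g ^ q * f) = g ^ q * φ V f}
  zero_mem' := ⟨fun _ _ _ _ => by simp, fun _ _ _ => by simp⟩
  add_mem' := by
    rintro a b ⟨ha, ha'⟩ ⟨hb, hb'⟩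
    refine ⟨fun V W h f => ?_, fun V g f => ?_⟩
    · simp only [Pi.add_apply, AddMonoidHom.add_apply, map_add, ha V W h f, hb V W h f]
    · simp only [Pi.add_apply, AddMonoidHom.add_apply, ha' V g f, hb' V g f, mul_add]
  neg_mem' := by
    rintro a ⟨ha, ha'⟩
    refine ⟨fun V W h f => ?_, fun V g f => ?_⟩
    · simp only [Pi.neg_apply, AddMonoidHom.neg_apply, map_neg, ha V W h f]
    · simp only [Pi.neg_apply, AddMonoidHom.neg_apply, ha' V g f, mul_neg]

/-- restriction of operators -/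
def DRes (X : Scheme.{0}) (q : ℕ) {U U' : X.Opens} (h : U' ≤ U) : DSec X q U →+ DSec X q U' where
  toFun φ := ⟨fun V => φ.1 ⟨V.1, V.2.trans h⟩,
    fun V W h' f => φ.2.1 ⟨V.1, V.2.trans h⟩ ⟨W.1, W.2.trans h⟩ h' f,
    fun V g f => φ.2.2 ⟨V.1, V.2.trans h⟩ g f⟩
  map_zero' := rfl
  map_add' _ _ := rfl

/-- the presheaf `U ↦ DSec X q U` -/
def DPre (X : Scheme.{0}) (q : ℕ) : TopCat.Presheaf AddCommGrpCat.{0} X where
  obj U := AddCommGrpCat.of (DSec X q U.unop)
  map i := AddCommGrpCat.ofHom (DRes X q i.unop.le)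
  map_id _ := rfl
  map_comp _ _ := rfl

lemma eq_of_cover {X : Scheme.{0}} {ι : Type} (U : ι → X.Opens) {V : X.Opens} (hV : V ≤ iSup U)
    (s t : Γ(X, V)) (h : ∀ i, res (inf_le_left : V ⊓ U i ≤ V) s = res inf_le_left t) : s = t := by
  refine X.sheaf.eq_of_locally_eq' (fun i => V ⊓ U i) V (fun i => homOfLE inf_le_left) ?_ s t h
  rw [← inf_iSup_eq]
  exact le_inf le_rfl hV

lemma exists_glue {X : Scheme.{0}} {ι : Type} (U : ι → X.Opens) {V : X.Opens} (hV : V ≤ iSup U)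
    (t : ∀ i, Γ(X, V ⊓ U i))
    (h : ∀ i j, res (inf_le_left : (V ⊓ U i) ⊓ (V ⊓ U j) ≤ V ⊓ U i) (t i) =
      res (inf_le_right : (V ⊓ U i) ⊓ (V ⊓ U j) ≤ V ⊓ U j) (t j)) :
    ∃ s : Γ(X, V), ∀ i, res (inf_le_left : V ⊓ U i ≤ V) s = t i := by
  have := X.sheaf.existsUnique_gluing' (fun i => V ⊓ U i) V (fun i => homOfLE inf_le_left) (by
    rw [← inf_iSup_eq]
    exact le_inf le_rfl hV) t h
  exact this.exists

lemma DPre_isSheaf (X : Scheme.{0}) (q : ℕ) : (DPre X q).IsSheaf := by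
  rw [TopCat.Presheaf.isSheaf_iff_isSheafUniqueGluing]
  intro ι U sf hsf
  have hc : ∀ i j (W : X.Opens) (hi : W ≤ U i) (hj : W ≤ U j),
      (sf i : DSec X q (U i)).1 ⟨W, hi⟩ = (sf j : DSec X q (U j)).1 ⟨W, hj⟩ := by
    intro i j W hi hj
    have h1 := hsf i j
    have h2 := congrArg (fun φ : DSec X q (U i ⊓ U j) => φ.1 ⟨W, le_inf hi hj⟩) h1
    exact h2
  have hex : ∀ (V : {V : X.Opens // V ≤ iSup U}) (f : Γ(X, V.1)), ∃ s : Γ(X, V.1),
      ∀ i, res (inf_le_left : V.1 ⊓ U i ≤ V.1) s =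
        (sf i : DSec X q (U i)).1 ⟨V.1 ⊓ U i, inf_le_right⟩ (res inf_le_left f) := by
    intro V f
    apply exists_glue U V.2
    intro i j
    rw [(sf i : DSec X q (U i)).2.1 ⟨V.1 ⊓ U i, inf_le_right⟩
        ⟨(V.1 ⊓ U i) ⊓ (V.1 ⊓ U j), inf_le_left.trans inf_le_right⟩,
      (sf j : DSec X q (U j)).2.1 ⟨V.1 ⊓ U j, inf_le_right⟩
        ⟨(V.1 ⊓ U i) ⊓ (V.1 ⊓ U j), inf_le_right.trans inf_le_right⟩, res_res, res_res,
      hc i j _ _ (inf_le_right.trans inf_le_right)]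
  choose g hg using hex
  have hg' : ∀ (V : {V : X.Opens // V ≤ iSup U}) (f : Γ(X, V.1)) i (W : X.Opens) (h1 : W ≤ V.1)
      (h2 : W ≤ U i), res h1 (g V f) = (sf i : DSec X q (U i)).1 ⟨W, h2⟩ (res h1 f) := by
    intro V f i W h1 h2
    have h3 := congrArg (res (le_inf h1 h2 : W ≤ V.1 ⊓ U i)) (hg V f i)
    rw [res_res, (sf i : DSec X q (U i)).2.1 ⟨V.1 ⊓ U i, inf_le_right⟩ ⟨W, h2⟩, res_res] at h3
    exact h3
  let φ : ∀ V : {V : X.Opens // V ≤ iSup U}, Γ(X, V.1) →+ Γ(X, V.1) := fun V =>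
    AddMonoidHom.mk' (g V) (by
      intro a b
      apply eq_of_cover U V.2
      intro i
      rw [map_add, hg, hg, hg, map_add, map_add])
  have hφ : φ ∈ DSec X q (iSup U) := by
    refine ⟨fun V W h f => ?_, fun V a f => ?_⟩
    · apply eq_of_cover U W.2
      intro i
      change res _ (res h (g V f)) = res _ (g W (res h f))
      rw [res_res, hg' V f i _ _ inf_le_right, hg' W _ i _ _ inf_le_right, res_res]
    · apply eq_of_cover U V.2
      intro i
      change res _ (g V (a ^ q * f)) = res _ (a ^ q * g V f)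
      rw [hg, (res _).map_mul, (res _).map_mul, (res _).map_pow, hg]
      exact (sf i : DSec X q (U i)).2.2 ⟨V.1 ⊓ U i, inf_le_right⟩ _ _
  refine ⟨(⟨φ, hφ⟩ : DSec X q (iSup U)), ?_, ?_⟩
  · intro i
    apply Subtype.ext
    funext V
    ext f
    change g ⟨V.1, _⟩ f = _
    have := hg' ⟨V.1, V.2.trans (le_iSup U i)⟩ f i V.1 le_rfl V.2
    rw [res_self, res_self] at this
    exact this
  · intro ψ hψ
    apply Subtype.ext
    funext V
    ext f
    apply eq_of_cover U V.2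
    intro i
    change res _ ((ψ : DSec X q (iSup U)).1 V f) = res _ (g V f)
    rw [hg, (ψ : DSec X q (iSup U)).2.1 V ⟨V.1 ⊓ U i, inf_le_left.trans V.2⟩, ← hψ i]
    rfl

/-- the sheaf of endomorphisms of `O_X` linear over `q`-th powers; `q = p ^ e` gives
the operators of level `e` -/
def D (X : Scheme.{0}) (q : ℕ) : Sheaf (Opens.grothendieckTopology X) AddCommGrpCat.{0} :=
  ⟨DPre X q, DPre_isSheaf X q⟩

/-- an operator linear over `p ^ e`-th powers is linear over `p ^ e'`-th powers, `e ≤ e'` -/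
def inclSec (X : Scheme.{0}) (p : ℕ) {e e' : ℕ} (h : e ≤ e') (U : X.Opens) :
    DSec X (p ^ e) U →+ DSec X (p ^ e') U where
  toFun φ := ⟨φ.1, φ.2.1, fun V g f => by
    have h1 : g ^ p ^ e' = (g ^ p ^ (e' - e)) ^ p ^ e := by
      rw [← pow_mul, ← pow_add, Nat.sub_add_cancel h]
    rw [h1]
    exact φ.2.2 V _ f⟩
  map_zero' := rfl
  map_add' _ _ := rfl

/-- the natural inclusion of the operators of level `e` in those of level `e'` -/
def incl (X : Scheme.{0}) (p : ℕ) {e e' : ℕ} (h : e ≤ e') : D X (p ^ e) ⟶ D X (p ^ e') :=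
  ⟨{ app U := AddCommGrpCat.ofHom (inclSec X p h U.unop)
     naturality _ _ _ := rfl }⟩

/-- `O_X → F_* O_X` splits: there is a map of sheaves `φ : F_* O_X → O_X`, additive with
`φ (g ^ p f) = g φ f`, with `φ 1 = 1` -/
def GloballyFSplit (X : Scheme.{0}) (p : ℕ) : Prop :=
  ∃ φ : ∀ V : X.Opens, Γ(X, V) →+ Γ(X, V),
    (∀ (V W : X.Opens) (h : W ≤ V) (f : Γ(X, V)), res h (φ V f) = φ W (res h f)) ∧
    (∀ (V : X.Opens) (g f : Γ(X, V)), φ V (g ^ p * f) = g * φ V f) ∧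
    ∀ V : X.Opens, φ V 1 = 1

end Pool.Agent.H891Z.Dif
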