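import Mathlib
import Pool.Agent.H891Z.Dif.Defs

/-!
Sections of the structure sheaf of `Proj` of a graded domain, read in a field.
-/

namespace Pool.Agent.H891Z.Dif

open AlgebraicGeometry CategoryTheory TopologicalSpace Opposite HomogeneousLocalization

variable {k R K : Type} [CommRing k] [CommRing R] [Algebra k R] [Field K]
  {𝒜 : ℕ → Submodule k R} [GradedAlgebra 𝒜] {ι : R →+* K}

lemma ne_zero_of_not_mem (hι : Function.Injective ι) {x : Proj 𝒜} {s : R}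
    (hs : s ∉ x.asHomogeneousIdeal) : ι s ≠ 0 := by
  intro h
  apply hs
  have : s = 0 := hι (h.trans (map_zero ι).symm)
  rw [this]
  exact zero_mem _

/-- the value in `K` of an element of a local ring of `Proj` -/
noncomputable def ev (hι : Function.Injective ι) (x : Proj 𝒜) :
    AtPrime 𝒜 x.asHomogeneousIdeal.toIdeal →+* K :=
  (IsLocalization.lift (M := x.asHomogeneousIdeal.toIdeal.primeCompl)
    (S := Localization x.asHomogeneousIdeal.toIdeal.primeCompl) (g := ι)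
    (fun y => (ne_zero_of_not_mem hι (x := x) y.2).isUnit)).comp (algebraMap _ _)

lemma ev_mk (hι : Function.Injective ι) (x : Proj 𝒜)
    (c : NumDenSameDeg 𝒜 x.asHomogeneousIdeal.toIdeal.primeCompl) :
    ev hι x (mk c) = ι c.num / ι c.den := by
  unfold ev
  rw [RingHom.comp_apply, HomogeneousLocalization.algebraMap_apply, val_mk, Localization.mk_eq_mk',
    IsLocalization.lift_mk'_spec, mul_div_cancel₀ _ (ne_zero_of_not_mem hι (x := x) c.den_mem)]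

lemma ev_injective (hι : Function.Injective ι) (x : Proj 𝒜) : Function.Injective (ev hι x) := by
  rw [injective_iff_map_eq_zero]
  intro a ha
  obtain ⟨c, rfl⟩ := mk_surjective a
  rw [ev_mk, div_eq_zero_iff] at ha
  have h1 : ι c.num = 0 := ha.resolve_right (ne_zero_of_not_mem hι (x := x) c.den_mem)
  have h2 : (c.num : R) = 0 := hι (h1.trans (map_zero ι).symm)
  apply val_injective
  rw [val_mk, val_zero, h2, Localization.mk_zero]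

/-- the value in `K` of a section at a point -/
noncomputable def evAt (hι : Function.Injective ι) (V : (Proj 𝒜).Opens) (x : Proj 𝒜)
    (hx : x ∈ V) : Γ(Proj 𝒜, V) →+* K :=
  (ev hι x).comp (openToLocalization 𝒜 V x hx).hom

lemma evAt_res (hι : Function.Injective ι) {V W : (Proj 𝒜).Opens} (h : W ≤ V) (x : Proj 𝒜)
    (hx : x ∈ W) (s : Γ(Proj 𝒜, V)) : evAt hι W x hx (res h s) = evAt hι V x (h hx) s := rfl

lemma evAt_ext (hι : Function.Injective ι) {V : (Proj 𝒜).Opens} {s t : Γ(Proj 𝒜, V)}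
    (h : ∀ x hx, evAt hι V x hx s = evAt hι V x hx t) : s = t := by
  apply Subtype.ext
  funext x
  exact ev_injective hι x.1 (h x.1 x.2)

lemma evAt_local (hι : Function.Injective ι) {V : (Proj 𝒜).Opens} (σ : Γ(Proj 𝒜, V))
    (x : Proj 𝒜) (hx : x ∈ V) : ∃ (W : (Proj 𝒜).Opens) (h : W ≤ V), x ∈ W ∧
      ∃ (i : ℕ) (r s : R), r ∈ 𝒜 i ∧ s ∈ 𝒜 i ∧ ∀ y (hy : y ∈ W), s ∉ y.asHomogeneousIdeal ∧
        evAt hι V y (h hy) σ = ι r / ι s := by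
  obtain ⟨W, hxW, i, n, r, s, hs, h⟩ := σ.2 ⟨x, hx⟩
  refine ⟨W, i.le, hxW, n, r, s, r.2, s.2, fun y hy => ⟨hs ⟨y, hy⟩, ?_⟩⟩
  have h1 := h ⟨y, hy⟩
  exact (congrArg (ev hι y) h1).trans (ev_mk hι y _)

lemma exists_sec (hι : Function.Injective ι) {V : (Proj 𝒜).Opens} (w : ∀ x ∈ V, K)
    (hw : ∀ x (_ : x ∈ V), ∃ (W : (Proj 𝒜).Opens) (h : W ≤ V), x ∈ W ∧
      ∃ (i : ℕ) (r s : R), r ∈ 𝒜 i ∧ s ∈ 𝒜 i ∧ ∀ y (hy : y ∈ W), s ∉ y.asHomogeneousIdeal ∧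
        w y (h hy) = ι r / ι s) :
    ∃ σ : Γ(Proj 𝒜, V), ∀ x hx, evAt hι V x hx σ = w x hx := by
  have h1 : ∀ x : V, ∃ z : AtPrime 𝒜 x.1.asHomogeneousIdeal.toIdeal, ev hι x.1 z = w x.1 x.2 := by
    intro x
    obtain ⟨W, h, hxW, i, r, s, hr, hs, h2⟩ := hw x.1 x.2
    refine ⟨mk ⟨i, ⟨r, hr⟩, ⟨s, hs⟩, (h2 x.1 hxW).1⟩, ?_⟩
    rw [ev_mk]
    exact (h2 x.1 hxW).2.symm
  choose z hz using h1
  refine ⟨⟨z, fun x => ?_⟩, fun x hx => hz ⟨x, hx⟩⟩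
  obtain ⟨W, h, hxW, i, r, s, hr, hs, h2⟩ := hw x.1 x.2
  refine ⟨W, hxW, homOfLE h, i, ⟨r, hr⟩, ⟨s, hs⟩, fun y => (h2 y.1 y.2).1, fun y => ?_⟩
  apply ev_injective hι y.1
  exact (hz ⟨y.1, h y.2⟩).trans ((h2 y.1 y.2).2.trans
    (ev_mk hι y.1 ⟨i, ⟨r, hr⟩, ⟨s, hs⟩, (h2 y.1 y.2).1⟩).symm)

/-- `ψ` preserves the local rings at the points of `U` -/
def Pres (ι : R →+* K) (ψ : K →+ K) (U : (Proj 𝒜).Opens) : Prop :=
  ∀ x ∈ U, ∀ (i : ℕ) (r s : R), r ∈ 𝒜 i → s ∈ 𝒜 i → s ∉ x.asHomogeneousIdeal →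
    ∃ (j : ℕ) (r' s' : R), r' ∈ 𝒜 j ∧ s' ∈ 𝒜 j ∧ s' ∉ x.asHomogeneousIdeal ∧
      ψ (ι r / ι s) = ι r' / ι s'

lemma Pres.sup {ψ : K →+ K} {U V : (Proj 𝒜).Opens} (h : Pres ι ψ U) (h' : Pres ι ψ V) :
    Pres ι ψ (U ⊔ V) := by
  intro x hx
  rcases (Opens.mem_sup.1 hx) with h1 | h1
  · exact h x h1
  · exact h' x h1

lemma exists_family (hι : Function.Injective ι) (ψ : K →+ K) (U : (Proj 𝒜).Opens)
    (H : Pres ι ψ U) :
    ∃ φ : ∀ V : {V : (Proj 𝒜).Opens // V ≤ U}, Γ(Proj 𝒜, V.1) →+ Γ(Proj 𝒜, V.1),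
      ∀ V σ x hx, evAt hι V.1 x hx (φ V σ) = ψ (evAt hι V.1 x hx σ) := by
  have h1 : ∀ (V : {V : (Proj 𝒜).Opens // V ≤ U}) (σ : Γ(Proj 𝒜, V.1)), ∃ τ : Γ(Proj 𝒜, V.1),
      ∀ x hx, evAt hι V.1 x hx τ = ψ (evAt hι V.1 x hx σ) := by
    intro V σ
    apply exists_sec hι
    intro x hx
    obtain ⟨W, h, hxW, i, r, s, hr, hs, h2⟩ := evAt_local hι σ x hx
    obtain ⟨j, r', s', hr', hs', hs'x, h3⟩ := H x (V.2 hx) i r s hr hs (h2 x hxW).1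
    refine ⟨W ⊓ Proj.basicOpen 𝒜 s', inf_le_left.trans h, ⟨hxW, hs'x⟩, j, r', s', hr', hs',
      fun y hy => ⟨hy.2, ?_⟩⟩
    rw [(h2 y hy.1).2, h3]
  choose g hg using h1
  refine ⟨fun V => AddMonoidHom.mk' (g V) ?_, fun V σ x hx => hg V σ x hx⟩
  intro a b
  apply evAt_ext hι
  intro x hx
  rw [hg, map_add, map_add, map_add, hg, hg]

lemma exists_DSec (hι : Function.Injective ι) (ψ : K →+ K) (q : ℕ)
    (hψ : ∀ w z, ψ (w ^ q * z) = w ^ q * ψ z) (U : (Proj 𝒜).Opens) (H : Pres ι ψ U) :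
    ∃ φ : DSec (Proj 𝒜) q U,
      ∀ V σ x hx, evAt hι V.1 x hx (φ.1 V σ) = ψ (evAt hι V.1 x hx σ) := by
  obtain ⟨φ, hφ⟩ := exists_family hι ψ U H
  refine ⟨⟨φ, fun V W h f => ?_, fun V g f => ?_⟩, hφ⟩
  · apply evAt_ext hι
    intro x hx
    rw [evAt_res, hφ, hφ, evAt_res]
  · apply evAt_ext hι
    intro x hx
    rw [hφ, (evAt _ _ _ _).map_mul, (evAt _ _ _ _).map_mul, (evAt _ _ _ _).map_pow, hψ, hφ]

lemma fsplit_of (hι : Function.Injective ι) (ψ : K →+ K) (p : ℕ)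
    (hψ : ∀ w z, ψ (w ^ p * z) = w * ψ z) (h1 : ψ 1 = 1) (H : Pres ι ψ (⊤ : (Proj 𝒜).Opens)) :
    GloballyFSplit (Proj 𝒜) p := by
  obtain ⟨φ, hφ⟩ := exists_family hι ψ ⊤ H
  refine ⟨fun V => φ ⟨V, le_top⟩, fun V W h f => ?_, fun V g f => ?_, fun V => ?_⟩
  · apply evAt_ext hι
    intro x hx
    rw [evAt_res, hφ ⟨V, le_top⟩, hφ ⟨W, le_top⟩, evAt_res]
  · apply evAt_ext hι
    intro x hx
    rw [hφ ⟨V, le_top⟩, (evAt _ _ _ _).map_mul, (evAt _ _ _ _).map_mul, (evAt _ _ _ _).map_pow,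
      hψ, hφ ⟨V, le_top⟩]
  · apply evAt_ext hι
    intro x hx
    rw [hφ ⟨V, le_top⟩, map_one, h1]

/-- the fraction `r / f` as a section over `D₊(f)` -/
lemma exists_frac (hι : Function.Injective ι) {i : ℕ} {r f : R} (hr : r ∈ 𝒜 i) (hf : f ∈ 𝒜 i) :
    ∃ σ : Γ(Proj 𝒜, Proj.basicOpen 𝒜 f), ∀ x hx, evAt hι _ x hx σ = ι r / ι f := by
  apply exists_sec hι (fun _ _ => ι r / ι f)
  intro x hx
  exact ⟨_, le_rfl, hx, i, r, f, hr, hf, fun y hy => ⟨hy, rfl⟩⟩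

lemma sec_basicOpen (hι : Function.Injective ι) {m : ℕ} {f : R} (hf : f ∈ 𝒜 m) (hm : 0 < m)
    (σ : Γ(Proj 𝒜, Proj.basicOpen 𝒜 f)) :
    ∃ (n : ℕ) (r : R), ∀ x hx, evAt hι _ x hx σ = ι r / ι f ^ n := by
  have hsurj : Function.Surjective (Proj.basicOpenIsoAway 𝒜 f hf hm).hom.hom :=
    (ConcreteCategory.bijective_of_isIso (Proj.basicOpenIsoAway 𝒜 f hf hm).hom).2
  obtain ⟨a, rfl⟩ := hsurj σ
  obtain ⟨c, rfl⟩ := mk_surjective a
  obtain ⟨n, hn⟩ := c.den_mem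
  refine ⟨n, c.num, fun x hx => ?_⟩
  have h1 : (c.den : R) ∉ x.asHomogeneousIdeal := by
    intro h
    apply hx
    rw [← hn] at h
    exact x.isPrime.mem_of_pow_mem n h
  have h2 := ev_mk hι x ⟨c.deg, c.num, c.den, h1⟩
  rw [← map_pow]
  have hn' : f ^ n = c.den := hn
  rw [hn']
  exact h2

/-- the generic point -/
def gen (hι : Function.Injective ι) {m : ℕ} {f : R} (hf : f ∈ 𝒜 m) (hm : 0 < m) (hf0 : f ≠ 0) :
    Proj 𝒜 :=
  ⟨⊥, by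
    have : IsDomain R := hι.isDomain ι
    exact Ideal.isPrime_bot, by
    intro h
    apply hf0
    have h1 : f ∈ HomogeneousIdeal.irrelevant 𝒜 := by
      rw [HomogeneousIdeal.mem_irrelevant_iff, GradedRing.proj_apply,
        DirectSum.decompose_of_mem_ne 𝒜 hf hm.ne']
    exact h h1⟩

lemma gen_mem (hι : Function.Injective ι) {m : ℕ} {f : R} (hf : f ∈ 𝒜 m) (hm : 0 < m)
    (hf0 : f ≠ 0) {V : (Proj 𝒜).Opens} {x : Proj 𝒜} (hx : x ∈ V) : gen hι hf hm hf0 ∈ V := by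
  obtain ⟨_, ⟨g, rfl⟩, hxg, hg⟩ := (Opens.isBasis_iff_nbhd.1 (Proj.isBasis_basicOpen 𝒜)) hx
  apply hg
  intro h
  apply hxg
  have : g = 0 := h
  rw [this]
  exact zero_mem _

lemma isIntegral_proj (hι : Function.Injective ι) {m : ℕ} {f : R} (hf : f ∈ 𝒜 m) (hm : 0 < m)
    (hf0 : f ≠ 0) : IsIntegral (Proj 𝒜) := by
  refine { nonempty := ⟨gen hι hf hm hf0⟩, component_integral := ?_ }
  intro V hV
  obtain ⟨x₀, hx₀⟩ := hV
  have hη := gen_mem hι hf hm hf0 hx₀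
  apply Function.Injective.isDomain (evAt hι V _ hη)
  rw [injective_iff_map_eq_zero]
  intro σ hσ
  apply evAt_ext hι
  intro x hx
  obtain ⟨W, h, hxW, i, r, s, hr, hs, h2⟩ := evAt_local hι σ x hx
  rw [map_zero, (h2 x hxW).2, ← (h2 _ (gen_mem hι hf hm hf0 hxW)).2]
  exact hσ

end Pool.Agent.H891Z.Dif
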