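import Mathlib
import Pool.Agent.H891Z.Dif.Defs

/-!
A criterion for non-injectivity on `H ^ 1`.
-/

namespace Pool.Agent.H891Z.Dif

open AlgebraicGeometry CategoryTheory TopologicalSpace Opposite Limits

/-- restriction of sections of an abelian sheaf -/
abbrev rs {X : TopCat.{0}} (F : Sheaf (Opens.grothendieckTopology X) AddCommGrpCat.{0}) {V W : Opens X} (h : W ≤ V) :
    F.obj.obj (op V) →+ F.obj.obj (op W) := (F.obj.map (homOfLE h).op).hom

lemma rs_nat {X : TopCat.{0}} {F G : Sheaf (Opens.grothendieckTopology X) AddCommGrpCat.{0}} (f : F ⟶ G)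
    {V W : Opens X} (h : W ≤ V) (s : F.obj.obj (op V)) :
    rs G h ((f.hom.app (op V)).hom s) = (f.hom.app (op W)).hom (rs F h s) := by
  simp

theorem not_injective_of {X : TopCat.{0}} {F G : Sheaf (Opens.grothendieckTopology X) AddCommGrpCat.{0}} (f : F ⟶ G)
    (hf : ∀ U, Function.Injective (f.hom.app U).hom) (V₁ V₂ : Opens X) (hV : V₁ ⊔ V₂ = ⊤)
    (s₁ : G.obj.obj (op V₁)) (s₂ : G.obj.obj (op V₂)) (t : F.obj.obj (op (V₁ ⊓ V₂)))
    (ht : (f.hom.app (op (V₁ ⊓ V₂))).hom t = rs G inf_le_left s₁ - rs G inf_le_right s₂)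
    (hno : ∀ (a : F.obj.obj (op V₁)) (b : F.obj.obj (op V₂)),
      t ≠ rs F inf_le_left a - rs F inf_le_right b) :
    ¬ Function.Injective (Sheaf.H.map f 1) := by
  intro hinj
  have : Mono f.hom := by
    rw [NatTrans.mono_iff_mono_app]
    intro U
    exact (AddCommGrpCat.mono_iff_injective _).2 (hf U)
  have : Mono f := (sheafToPresheaf _ _).mono_of_mono_map (f := f) (by assumption)
  let S : ShortComplex (Sheaf (Opens.grothendieckTopology X) AddCommGrpCat.{0}) :=
    ShortComplex.mk f (cokernel.π f) (cokernel.condition f)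
  have hS : S.ShortExact :=
    { exact := ShortComplex.exact_of_g_is_cokernel _ (cokernelIsCokernel f) }
  -- exactness on sections
  have hsec : ∀ (U : Opens X) (y : G.obj.obj (op U)),
      ((cokernel.π f).hom.app (op U)).hom y = 0 → ∃ x, (f.hom.app (op U)).hom x = y := by
    intro U y hy
    let E := sheafToPresheaf (Opens.grothendieckTopology X) AddCommGrpCat.{0} ⋙
      (evaluation _ _).obj (op U)
    have : E.PreservesZeroMorphisms := by
      dsimp only [E]
      infer_instance
    have : PreservesFiniteLimits E := by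
      dsimp only [E]
      infer_instance
    have h1 : (S.map E).Exact := by
      apply ShortComplex.exact_of_f_is_kernel
      exact KernelFork.mapIsLimit _ hS.fIsKernel E
    exact (ShortComplex.ab_exact_iff _).1 h1 y hy
  have hzero : ∀ (U : Opens X) (x : F.obj.obj (op U)),
      ((cokernel.π f).hom.app (op U)).hom ((f.hom.app (op U)).hom x) = 0 := by
    intro U x
    have h1 : f ≫ cokernel.π f = 0 := cokernel.condition f
    have h2 := congrArg (fun φ : F ⟶ cokernel f => (φ.hom.app (op U)).hom x) h1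
    exact h2
  -- glue
  obtain ⟨σ, hσ₁, hσ₂⟩ : ∃ σ : (cokernel f).obj.obj (op ⊤),
      rs _ le_top σ = ((cokernel.π f).hom.app (op V₁)).hom s₁ ∧
      rs _ le_top σ = ((cokernel.π f).hom.app (op V₂)).hom s₂ := by
    have hcompat : rs (cokernel f) (inf_le_left : V₁ ⊓ V₂ ≤ V₁)
        (((cokernel.π f).hom.app (op V₁)).hom s₁) =
        rs (cokernel f) (inf_le_right : V₁ ⊓ V₂ ≤ V₂) (((cokernel.π f).hom.app (op V₂)).hom s₂) := by
      rw [rs_nat, rs_nat, ← sub_eq_zero, ← map_sub, ← ht, hzero]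
    let U : Bool → Opens X := fun b => cond b V₁ V₂
    let sf : ∀ b, (cokernel f).obj.obj (op (U b)) := fun b =>
      match b with
      | true => ((cokernel.π f).hom.app (op V₁)).hom s₁
      | false => ((cokernel.π f).hom.app (op V₂)).hom s₂
    have rr : ∀ {A B C : Opens X} (h : B ≤ A) (h' : C ≤ B) (z : (cokernel f).obj.obj (op A)),
        rs _ h' (rs _ h z) = rs _ (h'.trans h) z := by
      intro A B C h h' z
      rw [← AddMonoidHom.comp_apply, ← AddCommGrpCat.hom_comp, ← Functor.map_comp]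
      rfl
    obtain ⟨σ, hσ, -⟩ := TopCat.Sheaf.existsUnique_gluing' (cokernel f) U ⊤
      (fun b => homOfLE le_top) (by
        rw [← hV]
        exact sup_le (le_iSup U true) (le_iSup U false)) sf (by
        intro i j
        cases i <;> cases j
        · rfl
        · have := congrArg (rs (cokernel f) (le_inf inf_le_right inf_le_left : V₂ ⊓ V₁ ≤ V₁ ⊓ V₂))
            hcompat
          rw [rr, rr] at this
          exact this.symm
        · exact hcompat
        · rfl)
    exact ⟨σ, hσ true, hσ false⟩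
  let x₃ : Sheaf.H (cokernel f) 0 := (Sheaf.H.equiv₀ (cokernel f) isTerminalTop).symm σ
  have h0 : Sheaf.H.map f 1 (x₃.comp hS.extClass (zero_add 1)) = 0 := by
    rw [Sheaf.H.map_apply, Abelian.Ext.comp_assoc_of_third_deg_zero]
    have := hS.extClass_comp
    erw [this]
    exact Abelian.Ext.comp_zero _ _ _ _ _
  have h1 : x₃.comp hS.extClass (zero_add 1) = 0 := hinj (h0.trans (map_zero _).symm)
  obtain ⟨x₂, hx₂⟩ := Abelian.Ext.covariant_sequence_exact₃ _ hS x₃ (zero_add 1) h1
  let s : G.obj.obj (op ⊤) := Sheaf.H.equiv₀ G isTerminalTop x₂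
  have hs : ((cokernel.π f).hom.app (op ⊤)).hom s = σ := by
    have h2 := Sheaf.H.equiv₀_naturality isTerminalTop (cokernel.π f) x₂
    have h3 : Sheaf.H.map (cokernel.π f) 0 x₂ = x₃ := hx₂
    rw [h3] at h2
    exact h2.trans (AddEquiv.apply_symm_apply _ _)
  obtain ⟨a, ha⟩ := hsec V₁ (s₁ - rs G le_top s) (by
    rw [map_sub, ← rs_nat, hs, hσ₁, sub_self])
  obtain ⟨b, hb⟩ := hsec V₂ (s₂ - rs G le_top s) (by
    rw [map_sub, ← rs_nat, hs, hσ₂, sub_self])
  apply hno a b
  apply hf
  have rr : ∀ {A B C : Opens X} (h : B ≤ A) (h' : C ≤ B) (z : G.obj.obj (op A)),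
      rs _ h' (rs _ h z) = rs _ (h'.trans h) z := by
    intro A B C h h' z
    rw [← AddMonoidHom.comp_apply, ← AddCommGrpCat.hom_comp, ← Functor.map_comp]
    rfl
  rw [ht, map_sub, ← rs_nat, ← rs_nat, ha, hb, map_sub, map_sub, rr, rr]
  abel

end Pool.Agent.H891Z.Dif
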