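import Mathlib
import Pool.Agent.H891Z.Dif.Fam
import Pool.Agent.H891Z.Dif.Les

/-!
The cohomological argument, for `Proj` of a graded domain.
-/

namespace Pool.Agent.H891Z.Dif

open AlgebraicGeometry CategoryTheory TopologicalSpace Opposite

theorem not_inj_D (X : Scheme.{0}) (p : ℕ) (V₁ V₃ : X.Opens) (hV : V₁ ⊔ V₃ = ⊤)
    (s₁ : DSec X (p ^ 2) V₁) (s₃ : DSec X (p ^ 2) V₃)
    (hlin : ∀ (W : X.Opens) (h1 : W ≤ V₁) (h3 : W ≤ V₃) (g f : Γ(X, W)),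
      s₁.1 ⟨W, h1⟩ (g ^ p ^ 1 * f) + s₃.1 ⟨W, h3⟩ (g ^ p ^ 1 * f) =
        g ^ p ^ 1 * (s₁.1 ⟨W, h1⟩ f + s₃.1 ⟨W, h3⟩ f))
    (hno : ∀ (A : DSec X (p ^ 1) V₁) (B : DSec X (p ^ 1) V₃),
      ¬ ∀ (W : X.Opens) (h1 : W ≤ V₁) (h3 : W ≤ V₃) (f : Γ(X, W)),
        s₁.1 ⟨W, h1⟩ f + s₃.1 ⟨W, h3⟩ f = A.1 ⟨W, h1⟩ f - B.1 ⟨W, h3⟩ f) :
    ¬ Function.Injective (Sheaf.H.map (incl X p (e := 1) (e' := 2) one_le_two) 1) := by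
  let u : DSec X (p ^ 2) (V₁ ⊓ V₃) :=
    DRes _ _ inf_le_left s₁ - DRes _ _ inf_le_right (-s₃)
  have hu : ∀ V σ, u.1 V σ = s₁.1 ⟨V.1, V.2.trans inf_le_left⟩ σ +
      s₃.1 ⟨V.1, V.2.trans inf_le_right⟩ σ := by
    intro V σ
    exact sub_neg_eq_add (s₁.1 ⟨V.1, V.2.trans inf_le_left⟩ σ)
      (s₃.1 ⟨V.1, V.2.trans inf_le_right⟩ σ)
  let t : DSec X (p ^ 1) (V₁ ⊓ V₃) := ⟨u.1, u.2.1, fun V g f => by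
    rw [hu, hu]
    exact hlin V.1 _ _ g f⟩
  refine not_injective_of _ ?_ V₁ V₃ hV s₁ (-s₃) t rfl ?_
  · intro W a b hab
    apply Subtype.ext
    exact congrArg (fun φ : DSec X (p ^ 2) W.unop => φ.1) hab
  · intro a b hab
    apply hno a b
    intro W h1 h3 f
    exact (hu ⟨W, le_inf h1 h3⟩ f).symm.trans
      (congrArg (fun φ : DSec X (p ^ 1) (V₁ ⊓ V₃) => φ.1 ⟨W, le_inf h1 h3⟩ f) hab)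

variable {k R K : Type} [CommRing k] [CommRing R] [Algebra k R] [Field K]
  {𝒜 : ℕ → Submodule k R} [GradedAlgebra 𝒜] {ι : R →+* K}

theorem not_inj_abstract (hι : Function.Injective ι) (p : ℕ) (ψ₁ ψ₂ ψ₃ : K →+ K)
    (b₁ : ∀ w z, ψ₁ (w ^ p ^ 1 * z) = w ^ p ^ 1 * ψ₁ z)
    (b₂ : ∀ w z, ψ₂ (w ^ p ^ 2 * z) = w ^ p ^ 2 * ψ₂ z)
    (b₃ : ∀ w z, ψ₃ (w ^ p ^ 2 * z) = w ^ p ^ 2 * ψ₃ z)
    (hsum : ∀ z, ψ₁ z = ψ₂ z + ψ₃ z) {f₁ f₂ f₃ f₄ : R} (m1 : f₁ ∈ 𝒜 1) (m2 : f₂ ∈ 𝒜 1)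
    (m3 : f₃ ∈ 𝒜 1) (m4 : f₄ ∈ 𝒜 1) (n1 : f₁ ≠ 0) (n3 : f₃ ≠ 0) (V₁ V₃ : (Proj 𝒜).Opens)
    (hV : V₁ ⊔ V₃ = ⊤) (hU1 : Proj.basicOpen 𝒜 f₁ ≤ V₁) (hU3 : Proj.basicOpen 𝒜 f₃ ≤ V₃)
    (pr₂ : Pres ι ψ₂ V₁) (pr₃ : Pres ι ψ₃ V₃)
    (hrel : ι f₄ / ι f₃ = (ι f₃ / ι f₁) ^ p ^ 1 * (ι f₂ / ι f₁))
    (hno : ∀ (n n' : ℕ) (r r' : R), ι r' / ι f₃ ^ n' ≠
      (ι f₃ / ι f₁) ^ p ^ 1 * (ι r / ι f₁ ^ n - ψ₁ (ι f₂ / ι f₁))) :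
    ¬ Function.Injective (Sheaf.H.map (incl (Proj 𝒜) p (e := 1) (e' := 2) one_le_two) 1) := by
  obtain ⟨s₁, hs₁⟩ := exists_DSec hι ψ₂ (p ^ 2) b₂ V₁ pr₂
  obtain ⟨s₃, hs₃⟩ := exists_DSec hι ψ₃ (p ^ 2) b₃ V₃ pr₃
  have hu : ∀ (W : (Proj 𝒜).Opens) (h1 : W ≤ V₁) (h3 : W ≤ V₃) (σ : Γ(Proj 𝒜, W)) x hx,
      evAt hι W x hx (s₁.1 ⟨W, h1⟩ σ + s₃.1 ⟨W, h3⟩ σ) = ψ₁ (evAt hι W x hx σ) := by
    intro W h1 h3 σ x hx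
    rw [map_add, hsum, hs₁ ⟨W, h1⟩, hs₃ ⟨W, h3⟩]
  refine not_inj_D _ p V₁ V₃ hV s₁ s₃ ?_ ?_
  · intro W h1 h3 g f
    apply evAt_ext hι
    intro x hx
    rw [hu, (evAt _ _ _ _).map_mul, (evAt _ _ _ _).map_mul, (evAt _ _ _ _).map_pow, b₁, hu]
  · intro A B hab
    obtain ⟨y, hy⟩ := exists_frac hι m2 m1
    obtain ⟨xx, hxx⟩ := exists_frac hι m3 m1
    obtain ⟨y', hy'⟩ := exists_frac hι m4 m3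
    let ξ := gen hι m1 one_pos n1
    let W := Proj.basicOpen 𝒜 f₁ ⊓ Proj.basicOpen 𝒜 f₃
    have hW1 : W ≤ Proj.basicOpen 𝒜 f₁ := inf_le_left
    have hW3 : W ≤ Proj.basicOpen 𝒜 f₃ := inf_le_right
    have hξW : ξ ∈ W := ⟨fun h => n1 h, fun h => n3 h⟩
    have hyy : res hW3 y' = res hW1 xx ^ p ^ 1 * res hW1 y := by
      apply evAt_ext hι
      intro x hx
      rw [map_mul, map_pow, evAt_res, evAt_res, evAt_res, hy, hxx, hy', hrel]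
    have e1 := hab W (hW1.trans hU1) (hW3.trans hU3) (res hW1 y)
    have e2 := A.2.1 ⟨_, hU1⟩ ⟨W, hW1.trans hU1⟩ hW1 y
    have e3 := B.2.1 ⟨_, hU3⟩ ⟨W, hW3.trans hU3⟩ hW3 y'
    rw [hyy, B.2.2 ⟨W, hW3.trans hU3⟩] at e3
    obtain ⟨n, r, hr⟩ := sec_basicOpen hι m1 one_pos (A.1 ⟨_, hU1⟩ y)
    obtain ⟨n', r', hr'⟩ := sec_basicOpen hι m3 one_pos (B.1 ⟨_, hU3⟩ y')
    have f1 := congrArg (evAt hι W ξ hξW) e1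
    have f2 := congrArg (evAt hι W ξ hξW) e2
    have f3 := congrArg (evAt hι W ξ hξW) e3
    have f0 := hu W (hW1.trans hU1) (hW3.trans hU3) (res hW1 y) ξ hξW
    rw [evAt_res, hr] at f2
    rw [evAt_res, hr', map_mul (evAt hι W ξ hξW), map_pow, evAt_res, hxx] at f3
    rw [evAt_res, hy] at f0
    rw [map_sub, ← f2] at f1
    have f4 := f0.symm.trans f1
    apply hno n n' r r'
    rw [f3, f4, sub_sub_cancel]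

end Pool.Agent.H891Z.Dif
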