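import Mathlib
import Pool.Agent.H891Z.Dif.Fam

/-!
Monomial operators on a ring of Laurent polynomials and their extension to the fraction field.
-/

namespace Pool.Agent.H891Z.Dif

open AlgebraicGeometry CategoryTheory TopologicalSpace Opposite AddMonoidAlgebra

lemma exists_extend {L : Type} [CommRing L] [IsDomain L] (ψ₀ : L →+ L) {q q' : ℕ} (hq : 1 ≤ q)
    (h : ∀ g f, ψ₀ (g ^ q * f) = g ^ q' * ψ₀ f) :
    ∃ ψ : FractionRing L →+ FractionRing L,
      (∀ f g : L, g ≠ 0 → ψ (algebraMap _ _ f / algebraMap _ _ g ^ q) =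
        algebraMap _ _ (ψ₀ f) / algebraMap _ _ g ^ q') ∧
      ∀ w z, ψ (w ^ q * z) = w ^ q' * ψ z := by
  have hinj : Function.Injective (algebraMap L (FractionRing L)) := IsFractionRing.injective _ _
  have hne : ∀ g : L, g ≠ 0 → algebraMap L (FractionRing L) g ≠ 0 := fun g hg h0 =>
    hg (hinj (h0.trans (map_zero _).symm))
  have hex : ∀ z : FractionRing L, ∃ f g : L, g ≠ 0 ∧
      z = algebraMap _ _ f / algebraMap _ _ g ^ q := by
    intro z
    obtain ⟨a, b, hb, rfl⟩ := IsFractionRing.div_surjective (A := L) z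
    have hb0 : b ≠ 0 := nonZeroDivisors.ne_zero hb
    obtain ⟨n, rfl⟩ : ∃ n, q = n + 1 := ⟨q - 1, by omega⟩
    refine ⟨a * b ^ n, b, hb0, ?_⟩
    have := hne b hb0
    rw [map_mul, map_pow]
    field_simp
    ring
  have hwd : ∀ f g f' g' : L, g ≠ 0 → g' ≠ 0 →
      algebraMap L (FractionRing L) f / algebraMap _ _ g ^ q =
        algebraMap _ _ f' / algebraMap _ _ g' ^ q →
      algebraMap L (FractionRing L) (ψ₀ f) / algebraMap _ _ g ^ q' =
        algebraMap _ _ (ψ₀ f') / algebraMap _ _ g' ^ q' := by
    intro f g f' g' hg hg' h1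
    rw [div_eq_div_iff (pow_ne_zero _ (hne g hg)) (pow_ne_zero _ (hne g' hg')), ← map_pow,
      ← map_pow, ← map_mul, ← map_mul] at h1 ⊢
    have h2 := hinj h1
    congr 1
    rw [mul_comm, ← h, mul_comm, h2, mul_comm, h, mul_comm]
  choose n d hd hz using hex
  have hspec : ∀ (z : FractionRing L) (f g : L), g ≠ 0 →
      z = algebraMap _ _ f / algebraMap _ _ g ^ q →
      algebraMap L (FractionRing L) (ψ₀ (n z)) / algebraMap _ _ (d z) ^ q' =
        algebraMap _ _ (ψ₀ f) / algebraMap _ _ g ^ q' := by
    intro z f g hg h1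
    exact hwd _ _ _ _ (hd z) hg ((hz z).symm.trans h1)
  refine ⟨AddMonoidHom.mk' (fun z => algebraMap L (FractionRing L) (ψ₀ (n z)) /
    algebraMap _ _ (d z) ^ q') ?_, fun f g hg => hspec _ f g hg rfl, ?_⟩
  · intro a b
    have ha := hne _ (hd a)
    have hb := hne _ (hd b)
    rw [hspec (a + b) (d b ^ q * n a + d a ^ q * n b) (d a * d b) (mul_ne_zero (hd a) (hd b)) (by
      conv_lhs => rw [hz a, hz b]
      simp only [map_add, map_mul, map_pow, mul_pow]
      field_simp)]
    rw [map_add, h, h]
    simp only [map_add, map_mul, map_pow, mul_pow]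
    field_simp
  · intro w z
    obtain ⟨a, b, hb, rfl⟩ := IsFractionRing.div_surjective (A := L) w
    have hb0 : b ≠ 0 := nonZeroDivisors.ne_zero hb
    have hb1 := hne b hb0
    have hz1 := hne _ (hd z)
    simp only [AddMonoidHom.mk'_apply]
    rw [hspec _ (a ^ q * n z) (b * d z) (mul_ne_zero hb0 (hd z)) (by
      conv_lhs => rw [hz z]
      simp only [map_mul, map_pow, mul_pow, div_pow]
      field_simp)]
    rw [h]
    simp only [map_mul, map_pow, mul_pow, div_pow]
    field_simp

section

variable {k G : Type} [Field k]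

open Classical in
/-- the operator `c χ ^ m ↦ θ c χ ^ (τ m)` on the monomials with `P m`, zero on the others -/
noncomputable def monoOp (θ : k →+ k) (P : G → Prop) (τ : G → G) : k[G] →+ k[G] :=
  (Finsupp.liftAddHom (fun m => if P m then (singleAddHom (τ m)).comp θ else 0)).comp
    (coeffAddEquiv (R := k) (M := G)).toAddMonoidHom

lemma monoOp_pos (θ : k →+ k) {P : G → Prop} (τ : G → G) {m : G} (h : P m) (c : k) :
    monoOp θ P τ (single m c) = single (τ m) (θ c) := by
  simp [monoOp, h]

lemma monoOp_neg (θ : k →+ k) {P : G → Prop} (τ : G → G) {m : G} (h : ¬ P m) (c : k) :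
    monoOp θ P τ (single m c) = 0 := by
  simp [monoOp, h]

variable [AddCommGroup G]

lemma monoOp_mul (θ : k →+ k) (P : G → Prop) (τ : G → G) {q q' : ℕ} (hq : q ≠ 0) (hq' : q' ≠ 0)
    (h1 : ∀ x y : k[G], (x + y) ^ q = x ^ q + y ^ q)
    (h2 : ∀ x y : k[G], (x + y) ^ q' = x ^ q' + y ^ q')
    (hP : ∀ g m, P (q • g + m) ↔ P m) (hτ : ∀ g m, P m → τ (q • g + m) = q' • g + τ m)
    (hθ : ∀ a c, θ (a ^ q * c) = a ^ q' * θ c) (g f : k[G]) :
    monoOp θ P τ (g ^ q * f) = g ^ q' * monoOp θ P τ f := by
  induction g using induction_linear with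
  | zero => simp [hq, hq']
  | add x y hx hy => rw [h1, h2, add_mul, add_mul, map_add, hx, hy]
  | single g a =>
    induction f using induction_linear with
    | zero => simp
    | add x y hx hy => rw [mul_add, map_add, map_add, mul_add, hx, hy]
    | single m c =>
      rw [single_pow, single_pow, single_mul_single]
      by_cases hm : P m
      · rw [monoOp_pos _ _ ((hP g m).2 hm), monoOp_pos _ _ hm, single_mul_single, hτ g m hm, hθ]
      · rw [monoOp_neg _ _ (fun h => hm ((hP g m).1 h)), monoOp_neg _ _ hm, mul_zero]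

lemma grade_induction {M : Type} {deg : M → ℕ} {n : ℕ} {motive : k[M] → Prop}
    (h0 : motive 0) (hadd : ∀ x y, motive x → motive y → motive (x + y))
    (hs : ∀ m c, deg m = n → motive (single m c)) {f : k[M]} (hf : f ∈ gradeBy k deg n) :
    motive f := by
  rw [← sum_coeff_single f]
  exact Finset.sum_induction _ motive hadd h0 (fun m hm => hs m _ (hf m hm))

variable [IsDomain k[G]] (S : AddSubmonoid G)

/-- the monoid algebra of a submonoid inside the fraction field of the group algebra -/
noncomputable def emb (k : Type) [Field k] [IsDomain k[G]] : k[S] →+* FractionRing k[G] :=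
  (algebraMap k[G] (FractionRing k[G])).comp (mapDomainRingHom k S.subtype)

lemma emb_injective : Function.Injective (emb S k) :=
  (IsFractionRing.injective k[G] (FractionRing k[G])).comp
    (mapDomain_injective S.subtype_injective)

lemma emb_single (m : S) (c : k) :
    emb S k (single m c) = algebraMap k[G] (FractionRing k[G]) (single (m : G) c) := by
  simp [emb]

variable (deg : S →+ ℕ)

lemma pres_of (θ : k →+ k) (P : G → Prop) (τ : G → G) {q q' : ℕ} (hq : 1 ≤ q)
    (ψ : FractionRing k[G] →+ FractionRing k[G])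
    (hψ : ∀ f g : k[G], g ≠ 0 → ψ (algebraMap _ _ f / algebraMap _ _ g ^ q) =
        algebraMap _ _ (monoOp θ P τ f) / algebraMap _ _ g ^ q') (η : S)
    (H : ∀ (m : S) (i : ℕ), deg m = q * i → P m → ∃ m' : S, (m' : G) = τ m + q' • (η : G) ∧
      deg m' = q' * (i + deg η)) :
    Pres (emb S k) ψ (Proj.basicOpen (gradeBy k deg) (single η 1)) := by
  intro x hx i r s hr hs hsx
  have key : ∀ f ∈ gradeBy k deg (q * i), ∃ r' ∈ gradeBy k deg (q' * (i + deg η)),
      mapDomainRingHom k S.subtype r' =
        monoOp θ P τ (mapDomainRingHom k S.subtype f) * single (q' • (η : G)) 1 := by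
    intro f hf
    refine grade_induction (motive := fun f => ∃ r' ∈ gradeBy k deg (q' * (i + deg η)),
      mapDomainRingHom k S.subtype r' =
        monoOp θ P τ (mapDomainRingHom k S.subtype f) * single (q' • (η : G)) 1) ?_ ?_ ?_ hf
    · exact ⟨0, zero_mem _, by simp⟩
    · rintro a b ⟨a', ha, ha'⟩ ⟨b', hb, hb'⟩
      exact ⟨a' + b', add_mem ha hb, by rw [map_add, map_add, map_add, add_mul, ha', hb']⟩
    · intro m c hm
      have e : mapDomainRingHom k S.subtype (single m c) = single (m : G) c := by simp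
      by_cases hP : P m
      · obtain ⟨m', h1, h2⟩ := H m i hm hP
        refine ⟨single m' (θ c), h2 ▸ single_mem_gradeBy _ _ _, ?_⟩
        rw [e, monoOp_pos _ _ hP, single_mul_single, mul_one, ← h1]
        simp
      · exact ⟨0, zero_mem _, by rw [e, monoOp_neg _ _ hP]; simp⟩
  obtain ⟨n, rfl⟩ : ∃ n, q = n + 1 := ⟨q - 1, by omega⟩
  have hf : r * s ^ n ∈ gradeBy k deg ((n + 1) * i) := by
    have := SetLike.mul_mem_graded hr (SetLike.pow_mem_graded n hs)
    convert this using 2
    simp only [smul_eq_mul]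
    ring
  obtain ⟨r', hr', h1⟩ := key _ hf
  have hη : (single η 1 : k[S]) ∈ gradeBy k deg (deg η) := single_mem_gradeBy _ _ _
  refine ⟨q' * (i + deg η), r', (s * single η 1) ^ q', hr', ?_, ?_, ?_⟩
  · exact SetLike.pow_mem_graded q' (SetLike.mul_mem_graded hs hη)
  · intro h
    rcases x.isPrime.mem_or_mem (x.isPrime.mem_of_pow_mem _ h) with h2 | h2
    · exact hsx h2
    · exact hx h2
  · have hs0 := ne_zero_of_not_mem (emb_injective S) hsx
    have hη0 := ne_zero_of_not_mem (emb_injective S) (x := x) hx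
    have hs1 : mapDomainRingHom k S.subtype s ≠ 0 := by
      intro h
      apply hs0
      rw [emb, RingHom.comp_apply, h, map_zero]
    have e1 : emb S k r / emb S k s =
        algebraMap _ _ (mapDomainRingHom k S.subtype (r * s ^ n)) /
          algebraMap _ _ (mapDomainRingHom k S.subtype s) ^ (n + 1) := by
      change _ = emb S k (r * s ^ n) / emb S k s ^ (n + 1)
      rw [map_mul, map_pow]
      field_simp
      ring
    have e2 : emb S k r' = algebraMap _ _ (monoOp θ P τ (mapDomainRingHom k S.subtype (r * s ^ n))) *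
        emb S k (single η 1) ^ q' := by
      rw [emb_single, ← map_pow, single_pow, one_pow, ← map_mul, ← h1]
      rfl
    rw [e1, hψ _ _ hs1, e2, map_pow, map_mul (emb S k), mul_pow]
    change _ / emb S k s ^ q' = _
    field_simp

end

end Pool.Agent.H891Z.Dif
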