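import Mathlib
import Pool.Agent.H891Z.Dif.Op

/-!
Smoothness of toric charts that are affine planes.
-/

namespace Pool.Agent.H891Z.Dif

open AlgebraicGeometry CategoryTheory TopologicalSpace Opposite AddMonoidAlgebra
  HomogeneousLocalization

section

variable {k R K : Type} [CommRing k] [CommRing R] [Algebra k R] [Field K]
  {𝒜 : ℕ → Submodule k R} [GradedAlgebra 𝒜] {ι : R →+* K}

/-- the value in `K` of a homogeneous fraction -/
noncomputable def evM (𝒜 : ℕ → Submodule k R) [GradedAlgebra 𝒜] (M : Submonoid R)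
    (hM : ∀ y : M, ι y ≠ 0) : HomogeneousLocalization 𝒜 M →+* K :=
  (IsLocalization.lift (M := M) (S := Localization M) (g := ι)
    (fun y => (hM y).isUnit)).comp (algebraMap _ _)

lemma evM_mk (M : Submonoid R) (hM : ∀ y : M, ι y ≠ 0) (c : NumDenSameDeg 𝒜 M) :
    evM 𝒜 M hM (mk c) = ι c.num / ι c.den := by
  unfold evM
  rw [RingHom.comp_apply, HomogeneousLocalization.algebraMap_apply, val_mk, Localization.mk_eq_mk',
    IsLocalization.lift_mk'_spec, mul_div_cancel₀ _ (hM ⟨_, c.den_mem⟩)]

lemma evM_injective (hι : Function.Injective ι) (M : Submonoid R) (hM : ∀ y : M, ι y ≠ 0) :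
    Function.Injective (evM 𝒜 M hM) := by
  rw [injective_iff_map_eq_zero]
  intro a ha
  obtain ⟨c, rfl⟩ := mk_surjective a
  rw [evM_mk, div_eq_zero_iff] at ha
  have h1 : ι c.num = 0 := ha.resolve_right (hM ⟨_, c.den_mem⟩)
  have h2 : (c.num : R) = 0 := hι (h1.trans (map_zero ι).symm)
  apply val_injective
  rw [val_mk, val_zero, h2, Localization.mk_zero]

lemma evM_away {f : R} {d : ℕ} (hf : f ∈ 𝒜 d) (hM : ∀ y : Submonoid.powers f, ι y ≠ 0)
    (n : ℕ) (r : R) (hr : r ∈ 𝒜 (n • d)) :
    evM 𝒜 _ hM (Away.mk 𝒜 hf n r hr) = ι r / ι f ^ n := by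
  rw [← map_pow]
  exact evM_mk _ hM _

lemma smooth_of_charts {J : Type} (f : J → R) (hf : ∀ j, f j ∈ 𝒜 1)
    (hcov : ∀ x : Proj 𝒜, ∃ j, f j ∉ x.asHomogeneousIdeal)
    (hs : ∀ j, ((fromZeroRingHom 𝒜 (Submonoid.powers (f j))).comp (algebraMap k (𝒜 0))).Smooth) :
    Smooth (Proj.toSpecZero 𝒜 ≫ Spec.map (CommRingCat.ofHom (algebraMap k (𝒜 0)))) := by
  have : IsZariskiLocalAtSource @Smooth :=
    HasRingHomProperty.instIsZariskiLocalAtSource (P := @Smooth) (Q := RingHom.Smooth)
  let 𝒰 : (Proj 𝒜).OpenCover := Scheme.Cover.mkOfCovers J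
    (fun j => Spec (.of (Away 𝒜 (f j)))) (fun j => Proj.awayι 𝒜 (f j) (hf j) one_pos) (by
      intro x
      obtain ⟨j, hj⟩ := hcov x
      have h1 : x ∈ (Proj.awayι 𝒜 (f j) (hf j) one_pos).opensRange := by
        rw [Proj.opensRange_awayι]
        exact hj
      exact ⟨j, h1⟩)
  apply IsZariskiLocalAtSource.of_openCover (P := @Smooth) 𝒰
  intro j
  change Smooth (Proj.awayι 𝒜 (f j) (hf j) one_pos ≫ _)
  rw [Proj.awayι_toSpecZero_assoc, ← Spec.map_comp, HasRingHomProperty.Spec_iff (P := @Smooth)]
  exact hs j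

end

variable {k G : Type} [Field k] [AddCommGroup G] [IsDomain k[G]] (S : AddSubmonoid G)
  (deg : S →+ ℕ)

omit [IsDomain k[G]] in
lemma single_ne_zero' (g : G) : algebraMap k[G] (FractionRing k[G]) (single g 1) ≠ 0 := by
  intro h
  have := IsFractionRing.injective k[G] (FractionRing k[G]) (h.trans (map_zero _).symm)
  simp at this

lemma single_div (g h : G) (c : k) :
    algebraMap k[G] (FractionRing k[G]) (single g c) /
      algebraMap k[G] (FractionRing k[G]) (single h 1) =
      algebraMap k[G] (FractionRing k[G]) (single (g - h) c) := by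
  rw [div_eq_iff (single_ne_zero' h), ← map_mul, single_mul_single, sub_add_cancel, mul_one]

lemma smooth_chart (η : S) (g : Fin 2 → S) (hη : deg η = 1) (hg : ∀ i, deg (g i) = 1)
    (hsurj : ∀ m : S, ∃ i j : ℕ, (m : G) - deg m • (η : G) =
      i • ((g 0 : G) - η) + j • ((g 1 : G) - η))
    (hinj : ∀ i j i' j' : ℕ, i • ((g 0 : G) - η) + j • ((g 1 : G) - η) =
      i' • ((g 0 : G) - η) + j' • ((g 1 : G) - η) → i = i' ∧ j = j') :
    ((fromZeroRingHom (gradeBy k deg) (Submonoid.powers (single η 1))).comp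
      (algebraMap k (gradeBy k deg 0))).Smooth := by
  set c := (fromZeroRingHom (gradeBy k deg) (Submonoid.powers (single η (1 : k)))).comp
      (algebraMap k (gradeBy k deg 0)) with hc
  have hf : (single η 1 : k[S]) ∈ gradeBy k deg 1 := hη ▸ single_mem_gradeBy _ _ _
  have hgm : ∀ i, (single (g i) 1 : k[S]) ∈ gradeBy k deg 1 := fun i =>
    hg i ▸ single_mem_gradeBy _ _ _
  have hM : ∀ y : Submonoid.powers (single η (1 : k) : k[S]), emb S k y ≠ 0 := by
    rintro ⟨_, n, rfl⟩
    simp only [map_pow]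
    apply pow_ne_zero
    rw [emb_single]
    exact single_ne_zero' _
  let v : Fin 2 → Away (gradeBy k deg) (single η 1) := fun i =>
    mk ⟨1, ⟨_, hgm i⟩, ⟨_, hf⟩, Submonoid.mem_powers _⟩
  let Φ : MvPolynomial (Fin 2) k →+* Away (gradeBy k deg) (single η 1) :=
    MvPolynomial.eval₂Hom c v
  let lin : (Fin 2 →₀ ℕ) →+ G :=
    { toFun := fun e => e 0 • ((g 0 : G) - η) + e 1 • ((g 1 : G) - η)
      map_zero' := by simp
      map_add' := by
        intro a b
        simp only [Finsupp.add_apply, add_smul]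
        abel }
  have hlin : Function.Injective lin := by
    intro a b hab
    obtain ⟨h0, h1⟩ := hinj _ _ _ _ hab
    ext i
    fin_cases i
    · exact h0
    · exact h1
  let Θ : MvPolynomial (Fin 2) k →+* k[G] := mapDomainRingHom k lin
  have hΘ : ∀ e a, Θ (MvPolynomial.monomial e a) = single (lin e) a := by
    intro e a
    exact mapDomain_single
  have hcomp : (evM (gradeBy k deg) _ hM).comp Φ =
      (algebraMap k[G] (FractionRing k[G])).comp Θ := by
    apply MvPolynomial.ringHom_ext
    · intro a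
      simp only [RingHom.comp_apply, Φ, MvPolynomial.eval₂Hom_C]
      rw [MvPolynomial.C_apply, hΘ, map_zero]
      refine (evM_mk _ hM ⟨0, algebraMap k (gradeBy k deg 0) a, 1, one_mem _⟩).trans ?_
      change emb S k (single 0 a) / emb S k 1 = _
      rw [map_one, div_one, emb_single]
      rfl
    · intro i
      simp only [RingHom.comp_apply, Φ, MvPolynomial.eval₂Hom_X']
      refine (evM_mk _ hM _).trans ?_
      change emb S k (single (g i) 1) / emb S k (single η 1) = _
      rw [emb_single, emb_single, single_div, MvPolynomial.X, hΘ]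
      congr 2
      fin_cases i <;> simp [lin]
  have hcomp' : ∀ P, evM (gradeBy k deg) _ hM (Φ P) =
      algebraMap k[G] (FractionRing k[G]) (Θ P) := fun P => RingHom.congr_fun hcomp P
  have hbij : Function.Bijective Φ := by
    constructor
    · intro P Q h
      have h1 := hcomp' P
      rw [h, hcomp' Q] at h1
      exact (mapDomain_injective hlin
        (IsFractionRing.injective k[G] (FractionRing k[G]) h1)).symm
    · intro a
      obtain ⟨n, r, hr, rfl⟩ := Away.mk_surjective (gradeBy k deg) hf a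
      have key : ∃ P, algebraMap k[G] (FractionRing k[G]) (Θ P) =
          emb S k r / emb S k (single η 1) ^ n := by
        refine grade_induction (motive := fun r => ∃ P,
          algebraMap k[G] (FractionRing k[G]) (Θ P) =
            emb S k r / emb S k (single η 1) ^ n) ?_ ?_ ?_ hr
        · exact ⟨0, by simp⟩
        · rintro a b ⟨P, hP⟩ ⟨Q, hQ⟩
          exact ⟨P + Q, by rw [map_add, map_add, map_add, add_div, hP, hQ]⟩
        · intro m a hm
          obtain ⟨i, j, h⟩ := hsurj m
          refine ⟨MvPolynomial.monomial (Finsupp.single 0 i + Finsupp.single 1 j) a, ?_⟩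
          rw [hΘ, emb_single, emb_single, ← map_pow, single_pow, one_pow, single_div]
          congr 2
          rw [hm, smul_eq_mul, mul_one] at h
          rw [h]
          simp [lin]
      obtain ⟨P, hP⟩ := key
      refine ⟨P, evM_injective (emb_injective S) _ hM ?_⟩
      rw [hcomp', hP, evM_away]
  have e : c = Φ.comp (algebraMap k (MvPolynomial (Fin 2) k)) := by
    ext a : 1
    simp [Φ]
  rw [e]
  refine RingHom.Smooth.comp (RingHom.smooth_algebraMap.2 ⟨inferInstance, inferInstance⟩)
    (RingHom.Smooth.of_bijective hbij)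

end Pool.Agent.H891Z.Dif
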