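import Mathlib
import Pool.Agent.H891Z.Dif.Chart

/-!
The Hirzebruch surface `F_p` as the scroll `S(1, p + 1)`.
-/

namespace Pool.Agent.H891Z.Dif

open AlgebraicGeometry CategoryTheory TopologicalSpace Opposite AddMonoidAlgebra
  HomogeneousLocalization

/-- exponents of Laurent monomials in four variables `s, t, u, v` -/
abbrev G4 : Type := ℤ × ℤ × ℤ × ℤ

/-- exponents of the monomials of the homogeneous coordinate ring of the scroll -/
def HS (p : ℕ) : AddSubmonoid G4 where
  carrier := {m | 0 ≤ m.1 ∧ 0 ≤ m.2.1 ∧ 0 ≤ m.2.2.1 ∧ 0 ≤ m.2.2.2 ∧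
    m.1 + m.2.1 = m.2.2.1 + (p + 1) * m.2.2.2}
  zero_mem' := by simp
  add_mem' := by
    rintro a b ⟨h1, h2, h3, h4, h5⟩ ⟨g1, g2, g3, g4, g5⟩
    simp only [Set.mem_ofPred_eq, Prod.fst_add, Prod.snd_add]
    refine ⟨by omega, by omega, by omega, by omega, by linarith⟩

lemma mem_HS {p : ℕ} {m : G4} : m ∈ HS p ↔ 0 ≤ m.1 ∧ 0 ≤ m.2.1 ∧ 0 ≤ m.2.2.1 ∧ 0 ≤ m.2.2.2 ∧
    m.1 + m.2.1 = m.2.2.1 + (p + 1) * m.2.2.2 := Iff.rfl

/-- the degree of a monomial -/
def hdeg (p : ℕ) : HS p →+ ℕ where
  toFun m := (m.1.2.2.1 + m.1.2.2.2).toNat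
  map_zero' := rfl
  map_add' := by
    rintro ⟨a, h1, h2, h3, h4, h5⟩ ⟨b, g1, g2, g3, g4, g5⟩
    simp only [AddSubmonoid.coe_add, Prod.fst_add, Prod.snd_add]
    omega

lemma hdeg_cast {p : ℕ} (m : HS p) : (hdeg p m : ℤ) = m.1.2.2.1 + m.1.2.2.2 := by
  obtain ⟨a, h1, h2, h3, h4, h5⟩ := m
  change (((a.2.2.1 + a.2.2.2).toNat : ℕ) : ℤ) = a.2.2.1 + a.2.2.2
  omega

/-- the monomial `t u` -/
def tu (p : ℕ) : HS p := ⟨(0, 1, 1, 0), by simp [mem_HS]⟩
/-- the monomial `s u` -/
def su (p : ℕ) : HS p := ⟨(1, 0, 1, 0), by simp [mem_HS]⟩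
/-- the monomial `s ^ i t ^ (p + 1 - i) v` -/
def stv (p : ℕ) (i : ℤ) (h0 : 0 ≤ i) (h1 : i ≤ p + 1) : HS p :=
  ⟨(i, p + 1 - i, 0, 1), by simp [mem_HS, h0, h1]⟩
/-- the monomial `t ^ (p + 1) v` -/
def tv (p : ℕ) : HS p := stv p 0 le_rfl (by omega)
/-- the monomial `s ^ (p + 1) v` -/
def sv (p : ℕ) : HS p := stv p (p + 1) (by omega) le_rfl

variable {k : Type} [Field k] {p : ℕ}

lemma mem_of_split {x : Proj (gradeBy k (hdeg p))} {η m m' : HS p} {n : ℕ}
    (h : (n + 1) • m = η + m') (hη : (single η 1 : k[HS p]) ∈ x.asHomogeneousIdeal) (c : k) :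
    (single m c : k[HS p]) ∈ x.asHomogeneousIdeal := by
  apply x.isPrime.mem_of_pow_mem (n + 1)
  rw [single_pow, h, ← one_mul (c ^ (n + 1)), ← single_mul_single]
  exact Ideal.mul_mem_right _ _ hη

lemma cover (x : Proj (gradeBy k (hdeg p))) :
    (single (tu p) 1 : k[HS p]) ∉ x.asHomogeneousIdeal ∨
    (single (tv p) 1 : k[HS p]) ∉ x.asHomogeneousIdeal ∨
    (single (su p) 1 : k[HS p]) ∉ x.asHomogeneousIdeal ∨
    (single (sv p) 1 : k[HS p]) ∉ x.asHomogeneousIdeal := by
  by_contra hcon
  push Not at hcon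
  obtain ⟨h1, h2, h3, h4⟩ := hcon
  have hm : ∀ (m : HS p) (c : k), hdeg p m ≠ 0 →
      (single m c : k[HS p]) ∈ x.asHomogeneousIdeal := by
    rintro m c hm
    have hd := hdeg_cast m
    obtain ⟨⟨a, b, c', d⟩, g1, g2, g3, g4, g5⟩ := m
    simp only at hd g1 g2 g3 g4 g5
    have hpd : 0 ≤ (p : ℤ) * d := mul_nonneg (by omega) g4
    have hab : 1 ≤ a + b := by
      have : c' + d ≥ 1 := by omega
      linarith
    by_cases hc : 1 ≤ c'
    · by_cases ha : 1 ≤ a
      · refine mem_of_split (n := 0) (m' := ⟨(a - 1, b, c' - 1, d), ?_⟩) ?_ h3 c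
        · simp only [mem_HS]
          exact ⟨by omega, by omega, by omega, by omega, by linarith⟩
        · apply Subtype.ext
          simp [su]
      · refine mem_of_split (n := 0) (m' := ⟨(a, b - 1, c' - 1, d), ?_⟩) ?_ h1 c
        · simp only [mem_HS]
          exact ⟨by omega, by omega, by omega, by omega, by linarith⟩
        · apply Subtype.ext
          simp [tu]
    · have hc0 : c' = 0 := by omega
      have hd1 : 1 ≤ d := by omega
      subst hc0
      by_cases ha : 1 ≤ a
      · refine mem_of_split (n := p) (m' := ⟨((p + 1) * (a - 1), (p + 1) * b, 0,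
          (p + 1) * d - 1), ?_⟩) ?_ h4 c
        · simp only [mem_HS]
          refine ⟨mul_nonneg (by omega) (by omega), mul_nonneg (by omega) (by omega), le_rfl,
            by linarith, by linear_combination ((p : ℤ) + 1) * g5⟩
        · apply Subtype.ext
          simp only [sv, stv, AddSubmonoidClass.coe_nsmul, AddSubmonoid.coe_add, Prod.smul_mk,
            Prod.mk_add_mk, nsmul_eq_mul, Prod.mk.injEq]
          push_cast
          refine ⟨by ring, by ring, by ring, by ring⟩
      · refine mem_of_split (n := p) (m' := ⟨((p + 1) * a, (p + 1) * (b - 1), 0,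
          (p + 1) * d - 1), ?_⟩) ?_ h2 c
        · simp only [mem_HS]
          refine ⟨mul_nonneg (by omega) (by omega), mul_nonneg (by omega) (by omega), le_rfl,
            by linarith, by linear_combination ((p : ℤ) + 1) * g5⟩
        · apply Subtype.ext
          simp only [tv, stv, AddSubmonoidClass.coe_nsmul, AddSubmonoid.coe_add, Prod.smul_mk,
            Prod.mk_add_mk, nsmul_eq_mul, Prod.mk.injEq]
          push_cast
          refine ⟨by ring, by ring, by ring, by ring⟩
  apply x.not_irrelevant_le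
  intro f hf
  classical
  rw [← DirectSum.sum_support_decompose (gradeBy k (hdeg p)) f]
  refine sum_mem fun i hi => ?_
  have hi0 : i ≠ 0 := by
    rintro rfl
    rw [HomogeneousIdeal.mem_irrelevant_iff, GradedRing.proj_apply] at hf
    exact (DFinsupp.mem_support_iff.1 hi) (Subtype.ext hf)
  exact grade_induction (motive := fun g => g ∈ x.asHomogeneousIdeal) (zero_mem _)
    (fun _ _ => add_mem) (fun m c h => hm m c (fun h' => hi0 (h.symm.trans h')))
    (DirectSum.decompose (gradeBy k (hdeg p)) f i).2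

lemma deg_one_finite : {m : HS p | hdeg p m = 1}.Finite := by
  apply Set.Finite.of_finite_image (f := Subtype.val) _ Subtype.val_injective.injOn
  apply (Set.finite_Icc ((0, 0, 0, 0) : G4) (p + 1, p + 1, 1, 1)).subset
  rintro _ ⟨m, hm, rfl⟩
  have hd := hdeg_cast m
  have hm' : hdeg p m = 1 := hm
  rw [hm'] at hd
  obtain ⟨⟨a, b, c, d⟩, g1, g2, g3, g4, g5⟩ := m
  simp only at hd g1 g2 g3 g4 g5
  simp only [Set.mem_Icc, Prod.mk_le_mk]
  have : d = 0 ∨ d = 1 := by omega
  rcases this with rfl | rfl <;> omega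

lemma generated : Algebra.adjoin k
    ((fun m => (single m 1 : k[HS p])) '' {m : HS p | hdeg p m = 1}) = ⊤ := by
  have key : ∀ (n : ℕ) (m : HS p), hdeg p m = n → (single m 1 : k[HS p]) ∈ Algebra.adjoin k
      ((fun m => (single m 1 : k[HS p])) '' {m : HS p | hdeg p m = 1}) := by
    intro n
    induction n with
    | zero =>
      intro m hm
      have hd := hdeg_cast m
      rw [hm] at hd
      have : m = 0 := by
        obtain ⟨⟨a, b, c, d⟩, g1, g2, g3, g4, g5⟩ := m
        simp only at hd g1 g2 g3 g4 g5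
        have h1 : d = 0 := by omega
        subst h1
        apply Subtype.ext
        rw [mul_zero] at g5
        have e1 : a = 0 := by omega
        have e2 : b = 0 := by omega
        have e3 : c = 0 := by omega
        subst e1 e2 e3
        rfl
      rw [this]
      exact one_mem _
    | succ n ih =>
      intro m hm
      have hsplit : ∃ g m' : HS p, hdeg p g = 1 ∧ m = g + m' := by
        have hd := hdeg_cast m
        rw [hm] at hd
        obtain ⟨⟨a, b, c', d⟩, g1, g2, g3, g4, g5⟩ := m
        simp only at hd g1 g2 g3 g4 g5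
        have hpd : 0 ≤ (p : ℤ) * d := mul_nonneg (by omega) g4
        have hab : 1 ≤ a + b := by
          have : c' + d ≥ 1 := by omega
          linarith
        by_cases hc : 1 ≤ c'
        · by_cases ha : 1 ≤ a
          · refine ⟨su p, ⟨(a - 1, b, c' - 1, d), ?_⟩, rfl, ?_⟩
            · simp only [mem_HS]
              exact ⟨by omega, by omega, by omega, by omega, by linarith⟩
            · apply Subtype.ext
              simp [su]
          · refine ⟨tu p, ⟨(a, b - 1, c' - 1, d), ?_⟩, rfl, ?_⟩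
            · simp only [mem_HS]
              exact ⟨by omega, by omega, by omega, by omega, by linarith⟩
            · apply Subtype.ext
              simp [tu]
        · have hc0 : c' = 0 := by omega
          have hd1 : 1 ≤ d := by omega
          subst hc0
          have h5 : (p : ℤ) + 1 ≤ a + b := by nlinarith
          refine ⟨stv p (min a (p + 1)) (by omega) (by omega),
            ⟨(a - min a (p + 1), b - (p + 1 - min a (p + 1)), 0, d - 1), ?_⟩, rfl, ?_⟩
          · simp only [mem_HS]
            exact ⟨by omega, by omega, le_rfl, by omega, by linarith⟩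
          · apply Subtype.ext
            simp [stv]
      obtain ⟨g, m', hg, rfl⟩ := hsplit
      rw [map_add, hg] at hm
      have e : (single (g + m') 1 : k[HS p]) = single g 1 * single m' 1 := by
        rw [single_mul_single, one_mul]
      rw [e]
      exact mul_mem (Algebra.subset_adjoin ⟨g, hg, rfl⟩) (ih m' (by omega))
  rw [eq_top_iff]
  intro f _
  induction f using induction_linear with
  | zero => exact zero_mem _
  | add x y hx hy => exact add_mem (hx trivial) (hy trivial)
  | single m c =>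
    rw [← mul_one c, ← smul_single']
    exact Subalgebra.smul_mem _ (key _ m rfl) c

lemma smooth_hirz : Smooth (Proj.toSpecZero (gradeBy k (hdeg p)) ≫
    Spec.map (CommRingCat.ofHom (algebraMap k (gradeBy k (hdeg p) 0)))) := by
  let η : Fin 4 → HS p := ![tu p, tv p, su p, sv p]
  have hη : ∀ j, hdeg p (η j) = 1 := by
    intro j
    fin_cases j <;> rfl
  apply smooth_of_charts (fun j => (single (η j) 1 : k[HS p]))
    (fun j => hη j ▸ single_mem_gradeBy _ _ _)
  · intro x
    rcases cover x with h | h | h | h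
    exacts [⟨0, h⟩, ⟨1, h⟩, ⟨2, h⟩, ⟨3, h⟩]
  · intro j
    fin_cases j
    · refine smooth_chart (HS p) (hdeg p) (tu p) ![su p, tv p] rfl
        (fun i => by fin_cases i <;> rfl) ?_ ?_
      · intro m
        have hd := hdeg_cast m
        obtain ⟨⟨a, b, c, d⟩, g1, g2, g3, g4, g5⟩ := m
        refine ⟨a.toNat, d.toNat, ?_⟩
        simp only at hd g1 g2 g3 g4 g5
        simp only [tu, su, tv, stv, Matrix.cons_val_zero, Matrix.cons_val_one, Prod.smul_mk,
          Prod.mk_add_mk, Prod.mk_sub_mk, nsmul_eq_mul, Prod.mk.injEq, hd,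
          Int.toNat_of_nonneg g1, Int.toNat_of_nonneg g4]
        refine ⟨by ring, by linarith, by ring, by ring⟩
      · intro i j i' j' h
        simp only [tu, su, tv, stv, Matrix.cons_val_zero, Matrix.cons_val_one, Prod.smul_mk,
          Prod.mk_add_mk, Prod.mk_sub_mk, nsmul_eq_mul, Prod.mk.injEq] at h
        omega
    · refine smooth_chart (HS p) (hdeg p) (tv p) ![stv p 1 (by omega) (by omega), tu p] rfl
        (fun i => by fin_cases i <;> rfl) ?_ ?_
      · intro m
        have hd := hdeg_cast m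
        obtain ⟨⟨a, b, c, d⟩, g1, g2, g3, g4, g5⟩ := m
        refine ⟨a.toNat, c.toNat, ?_⟩
        simp only at hd g1 g2 g3 g4 g5
        simp only [tu, tv, stv, Matrix.cons_val_zero, Matrix.cons_val_one, Prod.smul_mk,
          Prod.mk_add_mk, Prod.mk_sub_mk, nsmul_eq_mul, Prod.mk.injEq, hd,
          Int.toNat_of_nonneg g1, Int.toNat_of_nonneg g3]
        refine ⟨by ring, by linarith, by ring, by ring⟩
      · intro i j i' j' h
        simp only [tu, tv, stv, Matrix.cons_val_zero, Matrix.cons_val_one, Prod.smul_mk,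
          Prod.mk_add_mk, Prod.mk_sub_mk, nsmul_eq_mul, Prod.mk.injEq] at h
        omega
    · refine smooth_chart (HS p) (hdeg p) (su p) ![tu p, sv p] rfl
        (fun i => by fin_cases i <;> rfl) ?_ ?_
      · intro m
        have hd := hdeg_cast m
        obtain ⟨⟨a, b, c, d⟩, g1, g2, g3, g4, g5⟩ := m
        refine ⟨b.toNat, d.toNat, ?_⟩
        simp only at hd g1 g2 g3 g4 g5
        simp only [tu, su, sv, stv, Matrix.cons_val_zero, Matrix.cons_val_one, Prod.smul_mk,
          Prod.mk_add_mk, Prod.mk_sub_mk, nsmul_eq_mul, Prod.mk.injEq, hd,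
          Int.toNat_of_nonneg g2, Int.toNat_of_nonneg g4]
        refine ⟨by linarith, by ring, by ring, by ring⟩
      · intro i j i' j' h
        simp only [tu, su, sv, stv, Matrix.cons_val_zero, Matrix.cons_val_one, Prod.smul_mk,
          Prod.mk_add_mk, Prod.mk_sub_mk, nsmul_eq_mul, Prod.mk.injEq] at h
        omega
    · refine smooth_chart (HS p) (hdeg p) (sv p) ![stv p p (by omega) (by omega), su p] rfl
        (fun i => by fin_cases i <;> rfl) ?_ ?_
      · intro m
        have hd := hdeg_cast m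
        obtain ⟨⟨a, b, c, d⟩, g1, g2, g3, g4, g5⟩ := m
        refine ⟨b.toNat, c.toNat, ?_⟩
        simp only at hd g1 g2 g3 g4 g5
        simp only [su, sv, stv, Matrix.cons_val_zero, Matrix.cons_val_one, Prod.smul_mk,
          Prod.mk_add_mk, Prod.mk_sub_mk, nsmul_eq_mul, Prod.mk.injEq, hd,
          Int.toNat_of_nonneg g2, Int.toNat_of_nonneg g3]
        refine ⟨by linarith, by ring, by ring, by ring⟩
      · intro i j i' j' h
        simp only [su, sv, stv, Matrix.cons_val_zero, Matrix.cons_val_one, Prod.smul_mk,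
          Prod.mk_add_mk, Prod.mk_sub_mk, nsmul_eq_mul, Prod.mk.injEq] at h
        omega

end Pool.Agent.H891Z.Dif
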