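import Mathlib
import Pool.Agent.H891Z.Dif.Hirz
import Pool.Agent.H891Z.Dif.Abs

/-!
The Frobenius splitting of `F_p` and a class in `H ^ 1` of the operators of level one that dies
in level two.
-/

namespace Pool.Agent.H891Z.Dif

open AlgebraicGeometry CategoryTheory TopologicalSpace Opposite AddMonoidAlgebra
  HomogeneousLocalization

variable {k : Type} [Field k] {p : ℕ} [hp : Fact p.Prime] [CharP k p]

lemma add_pow_G4 (e : ℕ) (x y : k[G4]) : (x + y) ^ p ^ e = x ^ p ^ e + y ^ p ^ e := by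
  have : CharP k[G4] p := charP_of_injective_algebraMap (algebraMap k k[G4]).injective p
  exact add_pow_char_pow x y p e

theorem fsplit_hirz [PerfectField k] : GloballyFSplit (Proj (gradeBy k (hdeg p))) p := by
  have hp0 : (p : ℤ) ≠ 0 := by exact_mod_cast hp.out.ne_zero
  have hp1 : (0 : ℤ) < p := by exact_mod_cast hp.out.pos
  have : PerfectRing k p := PerfectField.toPerfectRing p
  let θ : k →+ k := (frobeniusEquiv k p).symm.toRingHom.toAddMonoidHom
  let P : G4 → Prop := fun m => (p : ℤ) ∣ m.1 ∧ (p : ℤ) ∣ m.2.1 ∧ (p : ℤ) ∣ m.2.2.1 ∧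
    (p : ℤ) ∣ m.2.2.2
  let τ : G4 → G4 := fun m => (m.1 / p, m.2.1 / p, m.2.2.1 / p, m.2.2.2 / p)
  have hmul := monoOp_mul θ P τ (q := p) (q' := 1) hp.out.ne_zero one_ne_zero
    (by simpa using add_pow_G4 (k := k) (p := p) 1) (by simp)
    (by
      rintro ⟨a, b, c, d⟩ ⟨a', b', c', d'⟩
      simp only [P, Prod.smul_mk, Prod.mk_add_mk, nsmul_eq_mul,
        dvd_add_right (dvd_mul_right (p : ℤ) _)])
    (by
      rintro ⟨a, b, c, d⟩ ⟨a', b', c', d'⟩ _
      simp only [τ, Prod.smul_mk, Prod.mk_add_mk, nsmul_eq_mul, Int.mul_add_ediv_left _ _ hp0,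
        Nat.cast_one, one_mul])
    (by
      intro a c
      change (frobeniusEquiv k p).symm (a ^ p * c) = a ^ 1 * (frobeniusEquiv k p).symm c
      rw [map_mul, pow_one]
      congr 1
      exact (frobeniusEquiv k p).symm_apply_apply a)
  obtain ⟨ψ, h1, h2⟩ := exists_extend (monoOp θ P τ) hp.out.one_le hmul
  refine fsplit_of (emb_injective (HS p)) ψ p (by simpa using h2) ?_ ?_
  · have h3 := h1 1 1 one_ne_zero
    rw [AddMonoidAlgebra.one_def, monoOp_pos θ τ (by simp [P]), ← AddMonoidAlgebra.one_def] at h3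
    have h4 : θ 1 = 1 := map_one (frobeniusEquiv k p).symm
    have h5 : τ 0 = 0 := by simp [τ, Prod.ext_iff]
    rw [h4, h5, ← AddMonoidAlgebra.one_def] at h3
    simpa using h3
  · have h3 := pres_of (HS p) (hdeg p) θ P τ hp.out.one_le ψ h1 0 (by
      intro m i hm hP
      have hd := hdeg_cast m
      rw [hm] at hd
      obtain ⟨⟨a, b, c, d⟩, g1, g2, g3, g4, g5⟩ := m
      obtain ⟨⟨a', rfl⟩, ⟨b', rfl⟩, ⟨c', rfl⟩, ⟨d', rfl⟩⟩ :
        (p : ℤ) ∣ a ∧ (p : ℤ) ∣ b ∧ (p : ℤ) ∣ c ∧ (p : ℤ) ∣ d := hP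
      simp only at hd g1 g2 g3 g4 g5
      have k1 := (mul_nonneg_iff_of_pos_left hp1).1 g1
      have k2 := (mul_nonneg_iff_of_pos_left hp1).1 g2
      have k3 := (mul_nonneg_iff_of_pos_left hp1).1 g3
      have k4 := (mul_nonneg_iff_of_pos_left hp1).1 g4
      refine ⟨⟨(a', b', c', d'), k1, k2, k3, k4, ?_⟩, ?_, ?_⟩
      · apply mul_left_cancel₀ hp0
        simp only
        linear_combination g5
      · simp [τ, Int.mul_ediv_cancel_left _ hp0]
      · have h6 : c' + d' = i := by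
          apply mul_left_cancel₀ hp0
          push_cast at hd
          linear_combination -hd
        change (c' + d').toNat = 1 * (i + 0)
        omega)
    rw [← AddMonoidAlgebra.one_def, Proj.basicOpen_one] at h3
    exact h3

/-- the weight of the operators -/
def wt (p : ℕ) : G4 := (-1, 1 - p, 1, -1)

/-- the operator `χ ^ m ↦ χ ^ (m + wt)` on the monomials with `P m` -/
noncomputable def shiftOp (k : Type) [Field k] (p : ℕ) (P : G4 → Prop) : k[G4] →+ k[G4] :=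
  monoOp (AddMonoidHom.id k) P (fun m => m + wt p)

lemma shiftOp_mul (e : ℕ) (P : G4 → Prop) (hP : ∀ g m, P (p ^ e • g + m) ↔ P m) (g f : k[G4]) :
    shiftOp k p P (g ^ p ^ e * f) = g ^ p ^ e * shiftOp k p P f :=
  monoOp_mul _ P _ (pow_ne_zero _ hp.out.ne_zero) (pow_ne_zero _ hp.out.ne_zero)
    (add_pow_G4 e) (add_pow_G4 e) hP (fun _ _ _ => add_assoc _ _ _) (fun _ _ => rfl) g f

/-- the monomials moved by the operator of level one -/
def P₁ (p : ℕ) (m : G4) : Prop := (p : ℤ) ∣ m.1 ∧ (p : ℤ) ∣ m.2.2.2 - 1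

omit hp in
lemma P₁_per (e : ℕ) (g m : G4) : P₁ p (p ^ (e + 1) • g + m) ↔ P₁ p m := by
  obtain ⟨a, b, c, d⟩ := g
  obtain ⟨a', b', c', d'⟩ := m
  simp only [P₁, Prod.smul_mk, Prod.mk_add_mk, nsmul_eq_mul, pow_succ', Nat.cast_mul, mul_assoc,
    add_sub_assoc, dvd_add_right (dvd_mul_right (p : ℤ) _)]

omit hp in
lemma sq_per (g m : G4) : (p : ℤ) ^ 2 ∣ (p ^ 2 • g + m).1 ↔ (p : ℤ) ^ 2 ∣ m.1 := by
  obtain ⟨a, b, c, d⟩ := g
  obtain ⟨a', b', c', d'⟩ := m
  simp only [Prod.smul_mk, Prod.mk_add_mk, nsmul_eq_mul, Nat.cast_pow,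
    dvd_add_right (dvd_mul_right ((p : ℤ) ^ 2) _)]

omit hp [CharP k p] in
lemma shiftOp_split (f : k[G4]) : shiftOp k p (P₁ p) f =
    shiftOp k p (fun m => P₁ p m ∧ ¬ (p : ℤ) ^ 2 ∣ m.1) f +
      shiftOp k p (fun m => P₁ p m ∧ (p : ℤ) ^ 2 ∣ m.1) f := by
  induction f using induction_linear with
  | zero => simp
  | add x y hx hy => rw [map_add, map_add, map_add, hx, hy]; abel
  | single m c =>
    unfold shiftOp
    by_cases h1 : P₁ p m
    · by_cases h2 : (p : ℤ) ^ 2 ∣ m.1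
      · rw [monoOp_pos _ _ h1, monoOp_neg (P := fun m => P₁ p m ∧ ¬ (p : ℤ) ^ 2 ∣ m.1) _ _
          (fun h => h.2 h2), monoOp_pos (P := fun m => P₁ p m ∧ (p : ℤ) ^ 2 ∣ m.1) _ _ ⟨h1, h2⟩,
          zero_add]
      · rw [monoOp_pos _ _ h1, monoOp_pos (P := fun m => P₁ p m ∧ ¬ (p : ℤ) ^ 2 ∣ m.1) _ _
          ⟨h1, h2⟩, monoOp_neg (P := fun m => P₁ p m ∧ (p : ℤ) ^ 2 ∣ m.1) _ _ (fun h => h2 h.2),
          add_zero]
    · rw [monoOp_neg _ _ h1, monoOp_neg (P := fun m => P₁ p m ∧ ¬ (p : ℤ) ^ 2 ∣ m.1) _ _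
          (fun h => h1 h.1), monoOp_neg (P := fun m => P₁ p m ∧ (p : ℤ) ^ 2 ∣ m.1) _ _
          (fun h => h1 h.1), add_zero]

lemma shift_mem (η m : HS p) (i : ℕ) (hm : hdeg p m = p ^ 2 * i) (h1 : P₁ p m)
    (h2 : (¬ (p : ℤ) ^ 2 ∣ m.1.1 ∧ 1 ≤ η.1.2.1) ∨ ((p : ℤ) ^ 2 ∣ m.1.1 ∧ 1 ≤ η.1.1)) :
    ∃ m' : HS p, (m' : G4) = (m + wt p) + p ^ 2 • (η : G4) ∧
      hdeg p m' = p ^ 2 * (i + hdeg p η) := by
  have hp2 : (2 : ℤ) ≤ p := by exact_mod_cast hp.out.two_le
  have hd := hdeg_cast m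
  have hη := hdeg_cast η
  rw [hm] at hd
  have hmem : (m + wt p) + p ^ 2 • (η : G4) ∈ HS p := by
    obtain ⟨⟨a, b, c, d⟩, g1, g2, g3, g4, g5⟩ := m
    obtain ⟨⟨a', b', c', d'⟩, f1, f2, f3, f4, f5⟩ := η
    obtain ⟨-, ⟨e, he⟩⟩ := h1
    simp only at hd g1 g2 g3 g4 g5 f1 f2 f3 f4 f5 he h2
    simp only [wt, mem_HS, Prod.smul_mk, Prod.mk_add_mk, nsmul_eq_mul, Nat.cast_pow]
    push_cast at hd
    have q0 : (0 : ℤ) ≤ (p : ℤ) ^ 2 := by positivity
    have q1 := mul_nonneg q0 f1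
    have q2 := mul_nonneg q0 f2
    have q3 := mul_nonneg q0 f3
    have q4 := mul_nonneg q0 f4
    have q5 : (p : ℤ) ≤ (p : ℤ) ^ 2 := by nlinarith
    have hd1 : 1 ≤ d := by
      by_contra hcon
      have h0 : d = 0 := by omega
      rw [h0] at he
      have : e ≤ -1 := by nlinarith
      nlinarith
    refine ⟨?_, ?_, by linarith, by linarith, by linear_combination g5 + (p : ℤ) ^ 2 * f5⟩
    · rcases h2 with ⟨h2, -⟩ | ⟨-, h2⟩
      · have : a ≠ 0 := by
          rintro rfl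
          exact h2 (dvd_zero _)
        omega
      · nlinarith
    · rcases h2 with ⟨-, h2⟩ | ⟨⟨f, hf⟩, -⟩
      · nlinarith
      · have hb : b = p + (p : ℤ) ^ 2 * (i + e - f) := by
          linear_combination g5 - hd + (p : ℤ) * he - hf
        have : 0 ≤ (i : ℤ) + e - f := by
          by_contra hcon
          have : (i : ℤ) + e - f ≤ -1 := by omega
          nlinarith
        nlinarith
  refine ⟨⟨_, hmem⟩, rfl, ?_⟩
  have h3 := hdeg_cast ⟨_, hmem⟩
  apply Int.natCast_inj.1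
  rw [h3]
  push_cast at hd ⊢
  rw [hη]
  simp only [wt, Prod.fst_add, Prod.snd_add, Prod.smul_fst, Prod.smul_snd]
  simp only [nsmul_eq_mul, Nat.cast_pow]
  linear_combination -hd

omit hp [CharP k p] in
lemma coeff_zero (r : k[HS p]) (g m₀ : G4) (h : ∀ m : HS p, (m : G4) + g ≠ m₀) :
    (mapDomainRingHom k (HS p).subtype r * single g 1).coeff m₀ = 0 := by
  induction r using induction_linear with
  | zero => simp
  | add x y hx hy => rw [map_add, add_mul, coeff_add, Finsupp.add_apply, hx, hy, add_zero]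
  | single m c =>
    have e : mapDomainRingHom k (HS p).subtype (single m c) = single (m : G4) c := by simp
    rw [e, single_mul_single, coeff_single, Finsupp.single_eq_of_ne (h m).symm]

omit hp [CharP k p] in
lemma emb_div (r : k[HS p]) (η : HS p) (n : ℕ) :
    emb (HS p) k r / emb (HS p) k (single η 1) ^ n = algebraMap k[G4] (FractionRing k[G4])
      (mapDomainRingHom k (HS p).subtype r * single (-(n • (η : G4))) 1) := by
  rw [emb_single, ← map_pow, single_pow, one_pow, div_eq_iff (single_ne_zero' _), ← map_mul,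
    mul_assoc, single_mul_single, neg_add_cancel, one_mul, ← AddMonoidAlgebra.one_def, mul_one]
  rfl

theorem not_injective_hirz : ¬ Function.Injective
    (Sheaf.H.map (incl (Proj (gradeBy k (hdeg p))) p (e := 1) (e' := 2) one_le_two) 1) := by
  have hι := emb_injective (k := k) (HS p)
  have hq : ∀ e, 1 ≤ p ^ e := fun e => Nat.one_le_pow _ _ hp.out.pos
  obtain ⟨ψ₁, a₁, b₁⟩ := exists_extend (shiftOp k p (P₁ p)) (hq 1)
    (shiftOp_mul 1 _ (P₁_per 0))
  obtain ⟨ψ₂, a₂, b₂⟩ := exists_extend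
    (shiftOp k p (fun m => P₁ p m ∧ ¬ (p : ℤ) ^ 2 ∣ m.1)) (hq 2)
    (shiftOp_mul 2 _ (fun g m => by rw [P₁_per 1, sq_per]))
  obtain ⟨ψ₃, a₃, b₃⟩ := exists_extend
    (shiftOp k p (fun m => P₁ p m ∧ (p : ℤ) ^ 2 ∣ m.1)) (hq 2)
    (shiftOp_mul 2 _ (fun g m => by rw [P₁_per 1, sq_per]))
  have hsum : ∀ z, ψ₁ z = ψ₂ z + ψ₃ z := by
    intro z
    obtain ⟨a, b, hb, rfl⟩ := IsFractionRing.div_surjective (A := k[G4]) z
    have hb0 : b ≠ 0 := nonZeroDivisors.ne_zero hb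
    have hb1 : algebraMap k[G4] (FractionRing k[G4]) b ≠ 0 := fun h0 =>
      hb0 (IsFractionRing.injective k[G4] (FractionRing k[G4]) (h0.trans (map_zero _).symm))
    obtain ⟨n, hn⟩ : ∃ n, p ^ 2 = n + 1 := ⟨p ^ 2 - 1, by have := hq 2; omega⟩
    have e1 : algebraMap k[G4] (FractionRing k[G4]) a / algebraMap _ _ b =
        algebraMap _ _ (a * b ^ n) / algebraMap _ _ b ^ p ^ 2 := by
      rw [map_mul, map_pow, hn]
      field_simp
      ring
    have e2 : algebraMap k[G4] (FractionRing k[G4]) b ^ p ^ 2 =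
        algebraMap _ _ (b ^ p) ^ p ^ 1 := by
      rw [map_pow, ← pow_mul, pow_one, pow_two]
    rw [e1, a₂ _ _ hb0, a₃ _ _ hb0, e2, a₁ _ _ (pow_ne_zero _ hb0), shiftOp_split, map_add,
      add_div]
  let U : HS p → (Proj (gradeBy k (hdeg p))).Opens := fun η =>
    Proj.basicOpen (gradeBy k (hdeg p)) (single η 1)
  have pr₂ : ∀ η : HS p, 1 ≤ η.1.2.1 → Pres (emb (HS p) k) ψ₂ (U η) := fun η hη =>
    pres_of (HS p) (hdeg p) _ _ _ (hq 2) ψ₂ a₂ η
      (fun m i hm h => shift_mem η m i hm h.1 (Or.inl ⟨h.2, hη⟩))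
  have pr₃ : ∀ η : HS p, 1 ≤ η.1.1 → Pres (emb (HS p) k) ψ₃ (U η) := fun η hη =>
    pres_of (HS p) (hdeg p) _ _ _ (hq 2) ψ₃ a₃ η
      (fun m i hm h => shift_mem η m i hm h.1 (Or.inr ⟨h.2, hη⟩))
  have hdeg1 : ∀ η : HS p, hdeg p η = 1 → (single η 1 : k[HS p]) ∈ gradeBy k (hdeg p) 1 :=
    fun η h => h ▸ single_mem_gradeBy _ _ _
  have hne : ∀ η : HS p, (single η 1 : k[HS p]) ≠ 0 := fun η => by simp
  refine not_inj_abstract hι p ψ₁ ψ₂ ψ₃ b₁ b₂ b₃ hsum (hdeg1 (tu p) rfl) (hdeg1 (tv p) rfl)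
    (hdeg1 (su p) rfl) (hdeg1 (sv p) rfl) (hne _) (hne _) (U (tu p) ⊔ U (tv p))
    (U (su p) ⊔ U (sv p)) ?_ le_sup_left le_sup_left
    ((pr₂ _ (by simp [tu])).sup (pr₂ _ (by simp [tv, stv])))
    ((pr₃ _ (by simp [su])).sup (pr₃ _ (by simp [sv, stv]))) ?_ ?_
  · rw [eq_top_iff]
    intro x _
    rcases cover x with h | h | h | h
    · exact Or.inl (Or.inl h)
    · exact Or.inl (Or.inr h)
    · exact Or.inr (Or.inl h)
    · exact Or.inr (Or.inr h)
  · rw [emb_single, emb_single, emb_single, emb_single, single_div, single_div, single_div,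
      ← map_pow, ← map_mul, single_pow, single_mul_single, one_pow, one_mul]
    congr 2
    simp [tu, su, tv, sv, stv]
  · intro n n' r r' f3
    have g0 := a₁ (single ((tv p : G4) - tu p) 1) 1 one_ne_zero
    rw [map_one, one_pow, div_one, div_one, shiftOp, monoOp_pos _ _
      (by simp [P₁, tu, tv, stv])] at g0
    rw [emb_div, emb_div, emb_single, emb_single, emb_single, single_div, single_div, g0,
      ← map_pow, ← map_sub, ← map_mul] at f3
    have f6 := IsFractionRing.injective k[G4] (FractionRing k[G4]) f3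
    have hp2 : (2 : ℤ) ≤ p := by exact_mod_cast hp.out.two_le
    have f7 := congrArg (fun z : k[G4] => z.coeff ((p : ℤ) - 1, 1 - (p : ℤ), 0, 0)) f6
    rw [coeff_zero, mul_sub, mul_comm, mul_assoc, single_pow, single_mul_single,
      single_mul_single, coeff_sub, Finsupp.sub_apply, one_pow, one_mul, coeff_zero] at f7
    · have e : p ^ 1 • ((su p : G4) - (tu p : G4)) + ((tv p : G4) - (tu p : G4) + wt p) =
          ((p : ℤ) - 1, 1 - (p : ℤ), 0, 0) := by
        simp [tu, su, tv, stv, wt]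
        constructor <;> ring
      rw [e] at f7
      simp at f7
    · rintro ⟨⟨a, b, c, d⟩, g1, g2, g3, g4, g5⟩ h
      have := congrArg Prod.fst h
      simp [tu, su] at this g1
      omega
    · rintro ⟨⟨a, b, c, d⟩, g1, g2, g3, g4, g5⟩ h
      have := congrArg (fun z : G4 => z.2.1) h
      simp [su] at this g2
      omega

end Pool.Agent.H891Z.Dif
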